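import Mathlib
import Pool.Agent.helper12.FI5.DefsW5

/-!
# Blocks with abelian defect group of large exponent: definitions for the statement

`Irr`, `IrrOn`, `omega`, `Induces`, `funMap` are those of `helper58/DC/Defs.lean`, `DefectGroup` is that of
`helper12/TZ/DefsV.lean`, `inertial` is that of `helper12/FI/DefsF.lean`, `regular`, `QuotientOrder` and `brauerNumber` are those
of `helper12/FI5/DefsW5.lean`. `B` is the block of the irreducible character `χ` of `G`.
-/

set_option autoImplicit false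

namespace Pool.Agent.FIL

open Pool.Agent.helper58.DC Pool.Agent.FIW Pool.Agent.FIV

variable {G : Type} [Group G]

/-- `D` is a defect group of `B`, `D` is abelian, `b` is the block of the character `θ` of `C_G(D)` and `b^G = B`. -/
structure AbelianDefect (p : ℕ) (M : Ideal (integralClosure ℤ ℂ)) (χ : G → ℂ) (D : Subgroup G)
    (θ : G → ℂ) : Prop where
  defect : Pool.Agent.MAP.DefectGroup p M χ D
  comm : ∀ c ∈ D, ∀ d ∈ D, c * d = d * c
  char : θ ∈ IrrOn (Subgroup.centralizer (D : Set G))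
  ind : Induces M θ χ

/-- `D` is isomorphic to the product of the cyclic groups of the orders `p ^ a i`. -/
def Invariants (p : ℕ) (D : Subgroup G) {r : ℕ} (a : Fin r → ℕ) : Prop :=
  Nonempty (D ≃* ((i : Fin r) → Multiplicative (ZMod (p ^ a i))))

/-- The exponent of `D` is at least `p ^ c`, `1 ≤ c`. -/
def Exponent (p : ℕ) (D : Subgroup G) (c : ℕ) : Prop :=
  1 ≤ c ∧ ∃ z ∈ D, z ^ p ^ (c - 1) ≠ 1

/-- `|I| |D| < p ^ (2 h + 2) |R|`, `I` the inertial quotient, `R` the set of the elements of `D` on which it acts regularly. -/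
def ManyRegular (p : ℕ) (M : Ideal (integralClosure ℤ ℂ)) (D : Subgroup G) (θ : G → ℂ) (h : ℕ) : Prop :=
  ∃ i : ℕ, QuotientOrder M D θ i ∧ i * Nat.card D < p ^ (2 * h + 2) * (regular M D θ).ncard

/-- There are a subgroup `K` of `D`, invariant under the inertial quotient `I`, all elements of `K` are `p ^ (h + 1)`-th powers of
elements of `D`, and an element `u K` of `D / K` on which `I` acts regularly, such that the order of `u K` is larger than
`p ^ s` (or `s = 0`), and `|D : K| ≤ p ^ (c + s)`. -/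
def RegularCoset (p : ℕ) (M : Ideal (integralClosure ℤ ℂ)) (D : Subgroup G) (θ : G → ℂ) (c h : ℕ) : Prop :=
  ∃ (K : Subgroup G) (u : G) (s : ℕ), K ≤ D ∧ u ∈ D ∧ (∀ k ∈ K, ∃ v ∈ D, v ^ p ^ (h + 1) = k) ∧
    (∀ t ∈ inertial M D θ, ∀ k ∈ K, t * k * t⁻¹ ∈ K) ∧
    (∀ t ∈ inertial M D θ, t * u * t⁻¹ * u⁻¹ ∈ K → t ∈ Subgroup.centralizer (D : Set G)) ∧
    (s = 0 ∨ u ^ p ^ s ∉ K) ∧ Nat.card D ≤ p ^ (c + s) * Nat.card K

/-- Every non-trivial element `t` of the inertial quotient has a commutator `[w, t]`, `w ∈ D`, of order at least `p ^ c`,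
`1 ≤ c`. -/
def LargeCommutators (p : ℕ) (M : Ideal (integralClosure ℤ ℂ)) (D : Subgroup G) (θ : G → ℂ) (c : ℕ) : Prop :=
  1 ≤ c ∧ ∀ t ∈ inertial M D θ, t ∉ Subgroup.centralizer (D : Set G) → ∃ w ∈ D, (w⁻¹ * t * w * t⁻¹) ^ p ^ (c - 1) ≠ 1

end Pool.Agent.FIL
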