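import Mathlib
import Pool.Agent.helper12.LE.DefsL

/-!
# Blocks with abelian defect group of large exponent: the conditions of the statement
-/

set_option autoImplicit false

namespace Pool.Agent.FIL

open Pool.Agent.helper58.DC Pool.Agent.FIW Pool.Agent.FIV

variable {G : Type} [Group G]

/-- `D ≅ C_(p ^ a) × C_(p ^ b)` with `a > b ≥ m`. -/
def RankTwoDistinct (p : ℕ) (D : Subgroup G) (m : ℕ) : Prop :=
  ∃ a b : ℕ, m ≤ b ∧ b < a ∧ Invariants p D ![a, b]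

/-- The inertial quotient `I = N_G(D, b) / C_G(D)` is abelian. -/
def AbelianQuotient (M : Ideal (integralClosure ℤ ℂ)) (D : Subgroup G) (θ : G → ℂ) : Prop :=
  ∀ s ∈ inertial M D θ, ∀ t ∈ inertial M D θ, s * t * s⁻¹ * t⁻¹ ∈ Subgroup.centralizer (D : Set G)

/-- One of the following (`v = 0` is the main case):
* `D ≅ C_(p ^ a) × C_(p ^ b)`, `a > b ≥ 1`, `a ≥ 2 + v`;
* `D ≅ C_(p ^ e) × C_(p ^ e)`, `e ≥ 3 + v`, or `e ≥ 2 + v` and `I` is abelian;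
* `D` has rank `r ≥ 1`, all invariants of `D` are at least `p ^ j`, `j ≥ 1`, the exponent of `D` is at least
  `p ^ (j (r - 1) + 1 + v)`, and `|I| ≤ (p - 1) p ^ (j - 1)`, or (no condition on `I`) `r ≤ j` and `r (r + 1) < 4 j`;
* for some `c ≥ 1` and `h ≥ 0` the exponent of `D` is at least `p ^ (c + v)`, and `RegularCoset c h` and `ManyRegular h` hold. -/
def LargeExponent (p : ℕ) (M : Ideal (integralClosure ℤ ℂ)) (D : Subgroup G) (θ : G → ℂ) (v : ℕ) : Prop :=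
  (∃ a b : ℕ, 1 ≤ b ∧ b < a ∧ 2 + v ≤ a ∧ Invariants p D ![a, b]) ∨
  (∃ e : ℕ, Invariants p D ![e, e] ∧ (3 + v ≤ e ∨ (2 + v ≤ e ∧ AbelianQuotient M D θ))) ∨
  (∃ (r : ℕ) (a : Fin r → ℕ) (j i : ℕ), Invariants p D a ∧ QuotientOrder M D θ i ∧ 1 ≤ r ∧ 1 ≤ j ∧ (∀ k, j ≤ a k) ∧
    (∃ k, j * (r - 1) + 1 + v ≤ a k) ∧ (i ≤ (p - 1) * p ^ (j - 1) ∨ (r ≤ j ∧ r * (r + 1) < 4 * j))) ∨
  ∃ c h : ℕ, 1 ≤ c ∧ Exponent p D (c + v) ∧ RegularCoset p M D θ c h ∧ ManyRegular p M D θ h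

/-- One of the following:
* `D ≅ C_(p ^ a) × C_(p ^ b)`, `a > b ≥ 2`;
* `D ≅ C_(p ^ e) × C_(p ^ e)`, `e ≥ 3`, or `e = 2` and `I` is abelian;
* `D` has rank `r ≥ 1`, all invariants of `D` are at least `p ^ j` and `p ^ (j (r - 1) + 1)`, `j ≥ 1`,
  and `|I| ≤ (p - 1) p ^ (j - 1)`, or (no condition on `I`) `r ≤ j` and `r (r + 1) < 4 j`;
* for some `c ≥ 1` and `h ≥ 0` `LargeCommutators c`, `RegularCoset c h` and `ManyRegular h` hold. -/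
def LargeExponentN (p : ℕ) (M : Ideal (integralClosure ℤ ℂ)) (D : Subgroup G) (θ : G → ℂ) : Prop :=
  RankTwoDistinct p D 2 ∨ (∃ e : ℕ, Invariants p D ![e, e] ∧ (3 ≤ e ∨ (2 ≤ e ∧ AbelianQuotient M D θ))) ∨
  (∃ (r : ℕ) (a : Fin r → ℕ) (j i : ℕ), Invariants p D a ∧ QuotientOrder M D θ i ∧ 1 ≤ r ∧ 1 ≤ j ∧ (∀ k, j ≤ a k) ∧
    (∀ k, j * (r - 1) + 1 ≤ a k) ∧ (i ≤ (p - 1) * p ^ (j - 1) ∨ (r ≤ j ∧ r * (r + 1) < 4 * j))) ∨
  ∃ c h : ℕ, LargeCommutators p M D θ c ∧ RegularCoset p M D θ c h ∧ ManyRegular p M D θ h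

/-- A condition which implies that all heights in `B` are zero:
* `D ≅ C_(p ^ a) × C_(p ^ b)`, `a > b ≥ 1`;
* `D ≅ C_(p ^ e) × C_(p ^ e)`, `e ≥ 1`, and `|I| p ^ e + p ^ 2 (p + 1) < p ^ (e + 2)` (so `|I| < p ^ 2` if `e ≥ 4`, `|I| ≤ p ^ 2 - 2` if
  `e = 3`), or `e ≥ 2` and `I` is abelian;
* `|I| < p`, or `|I| ≤ p (p - 1)` and every element of order `p` of `D` is a `p ^ 2`-th power in `D`, or `|I| < p ^ 2` and every
  element of order `p` of `D` is a `p ^ 3`-th power in `D`;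
* `|I| |D| < p ^ 2 |R|`, `R` the set of the elements of `D` on which `I` acts regularly. -/
def FewNonRegular (p : ℕ) (M : Ideal (integralClosure ℤ ℂ)) (D : Subgroup G) (θ : G → ℂ) : Prop :=
  RankTwoDistinct p D 1 ∨
  (∃ e i : ℕ, Invariants p D ![e, e] ∧ QuotientOrder M D θ i ∧
    ((1 ≤ e ∧ i * p ^ e + p ^ 2 * (p + 1) < p ^ (e + 2)) ∨ (2 ≤ e ∧ AbelianQuotient M D θ))) ∨
  (∃ i : ℕ, QuotientOrder M D θ i ∧ (i < p ∨ (i ≤ (p - 1) * p ∧ ∀ u ∈ D, u ^ p = 1 → ∃ v ∈ D, v ^ p ^ 2 = u) ∨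
    (i < p ^ 2 ∧ ∀ u ∈ D, u ^ p = 1 → ∃ v ∈ D, v ^ p ^ 3 = u))) ∨
  ManyRegular p M D θ 0

/-- All characters in the blocks `c` with `c^G = B` of the normalisers `N_C` of the radical `p`-chains `C` of `G` have defect `a`,
`|D| = p ^ a` (this is true for all blocks with abelian defect group `D` by the theorem of Kessar and Malle). -/
def HeightZero (p : ℕ) (M : Ideal (integralClosure ℤ ℂ)) (χ : G → ℂ) (D : Subgroup G) : Prop :=
  ∀ a : ℕ, Nat.card D = p ^ a → ∀ C : Finset (Subgroup G), IsRadical p C → ∀ ψ ∈ IrrOn (nrm C),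
    Induces M ψ χ → Defect p (nrm C) ψ a

end Pool.Agent.FIL
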