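import Mathlib
import Pool.Agent.helper12.LE.DefsM

/-!
# Blocks with abelian defect group of large exponent: one more condition
-/

set_option autoImplicit false

namespace Pool.Agent.FIL

open Pool.Agent.helper58.DC Pool.Agent.FIW Pool.Agent.FIV

variable {G : Type} [Group G]

/-- For some `c ≥ 1` the exponent of `D` is at least `p ^ (c + v)` and `p |D| ^ 2 ≤ p ^ (3 c)` (nothing is assumed on the inertial
quotient). For `v = 0`: `p |D| ^ 2` is at most the third power of the exponent of `D`; `D ≅ C_(p ^ c) × Q`, `p |Q| ^ 2 ≤ p ^ c`. -/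
def LargeCyclic (p : ℕ) (D : Subgroup G) (v : ℕ) : Prop :=
  ∃ c : ℕ, 1 ≤ c ∧ Exponent p D (c + v) ∧ p * Nat.card D ^ 2 ≤ p ^ (3 * c)

end Pool.Agent.FIL
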