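import Mathlib
import Pool.Agent.helper70.LE.Defs3
import Pool.Agent.helper12.LE.DefsM

/-!
# Project LE (MP_baa4d7_al): the explicit conditions on `D` and `|I|` (interface for the final statement)

`Invariants p D a` (`helper12/LE/DefsL`): `D` is isomorphic to the product of the cyclic groups of the orders `p ^ a i`.
-/

set_option autoImplicit false

namespace Pool.Agent.LE

open Pool.Agent.helper58.DC Pool.Agent.DI Pool.Agent.GR Pool.Agent.OB Pool.Agent.DR Pool.Agent.FI Pool.Agent.FI3 Pool.Agent.FI4 Pool.Agent.FIL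

/-- The standing hypotheses of the group theoretic part: `D` an abelian `p`-subgroup of `G`, `cz D ≤ T ≤ nz D`, `p ∤ |T : cz D|`. -/
structure GDT (p : ℕ) {G : Type} [Group G] (D T : Subgroup G) : Prop where
  pr : p.Prime
  odd : p ≠ 2
  pg : IsPGroup p D
  com : ∀ c ∈ D, ∀ d ∈ D, c * d = d * c
  le : cz D ≤ T
  nor : T ≤ nz D
  cop : ¬ p ∣ (cz D).relIndex T

/-- **R2A** (helper67). Rank 2, `a > b ≥ 1`: `K = D ^ p`, `h = g = 0`, `c = 2`. -/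
def R2A_stmt : Prop :=
  ∀ (p : ℕ) (G : Type) [Group G] [Finite G] (D T : Subgroup G), GDT p D T → ∀ a b : ℕ, 1 ≤ b → b < a → Invariants p D ![a, b] →
    HLE p 2 0 G D T ∧ HZE p G D T ∧ (2 ≤ b → HWE p 2 G D T)

/-- **R2B** (helper67). Rank 2, `a = b = e ≥ 3`: `K = D ^ (p ^ 2)`, `h = g = 1`, `c = 3`. -/
def R2B_stmt : Prop :=
  ∀ (p : ℕ) (G : Type) [Group G] [Finite G] (D T : Subgroup G), GDT p D T → ∀ e : ℕ, 3 ≤ e → Invariants p D ![e, e] →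
    HLE p 3 1 G D T ∧ HWE p 3 G D T

/-- **R2C** (helper67). Rank 2, `a = b = e`: the heights are zero. -/
def R2C_stmt : Prop :=
  ∀ (p : ℕ) (G : Type) [Group G] [Finite G] (D T : Subgroup G), GDT p D T → ∀ e : ℕ, Invariants p D ![e, e] →
    ((3 ≤ e ∧ (cz D).relIndex T + 2 ≤ p ^ 2) ∨ (4 ≤ e ∧ (cz D).relIndex T < p ^ 2) ∨
      (2 ≤ e ∧ ∀ s ∈ T, ∀ t ∈ T, s * t * s⁻¹ * t⁻¹ ∈ cz D)) → HZE p G D T

/-- **R2D** (helper67). Rank 2, `a = b = e ≥ 2`, `T / cz D` abelian: `K = D ^ p`, `h = g = 0`, `c = 2`. -/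
def R2D_stmt : Prop :=
  ∀ (p : ℕ) (G : Type) [Group G] [Finite G] (D T : Subgroup G), GDT p D T → ∀ e : ℕ, 2 ≤ e → Invariants p D ![e, e] →
    (∀ s ∈ T, ∀ t ∈ T, s * t * s⁻¹ * t⁻¹ ∈ cz D) → HLE p 2 0 G D T

/-- **RKR** (from ALLH, ALLI of helper95). Rank `r`, all invariants at least `p ^ j`: `K = D ^ (p ^ j)`, `g = j - 1`, `c = j (r - 1) + 1`. -/
def RKR_stmt : Prop :=
  ∀ (p : ℕ) (M : Ideal (integralClosure ℤ ℂ)) (G : Type) [Group G] [Finite G] (D : Subgroup G) (θ : G → ℂ), θ ∈ IrrOn (cz D) →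
    GDT p D (TT M D θ) → ∀ (r : ℕ) (a : Fin r → ℕ) (j : ℕ), 1 ≤ r → 1 ≤ j → (∀ i, j ≤ a i) →
    Invariants p D a → (iI M D θ ≤ (p - 1) * p ^ (j - 1) ∨ (r ≤ j ∧ r * (r + 1) < 4 * j)) →
    ∃ h : ℕ, HLE p (j * (r - 1) + 1) h G D (TT M D θ)

/-- **RKZ** (from ALLH of helper95). -/
def RKZ_stmt : Prop :=
  ∀ (p : ℕ) (M : Ideal (integralClosure ℤ ℂ)) (G : Type) [Group G] [Finite G] (D : Subgroup G) (θ : G → ℂ), θ ∈ IrrOn (cz D) →
    GDT p D (TT M D θ) → (iI M D θ < p ∨ (iI M D θ ≤ (p - 1) * p ∧ ∀ u ∈ D, u ^ p = 1 → ∃ v ∈ D, v ^ p ^ 2 = u) ∨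
      (iI M D θ < p ^ 2 ∧ ∀ u ∈ D, u ^ p = 1 → ∃ v ∈ D, v ^ p ^ 3 = u)) →
    HZE p G D (TT M D θ)

/-- **RKC** (from ALLW of helper95). Commutators: if all invariants are at least `p ^ c` then every `t ∈ T`, `t ∉ cz D` has a commutator of order at least `p ^ c`. -/
def RKC_stmt : Prop :=
  ∀ (p : ℕ) (M : Ideal (integralClosure ℤ ℂ)) (G : Type) [Group G] [Finite G] (D : Subgroup G) (θ : G → ℂ), θ ∈ IrrOn (cz D) →
    GDT p D (TT M D θ) → ∀ (r : ℕ) (a : Fin r → ℕ) (c : ℕ), 1 ≤ c → (∀ i, c ≤ a i) →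
    Invariants p D a → HWE p c G D (TT M D θ)

/-- **REX**. The exponent. -/
def REX_stmt : Prop :=
  ∀ (p : ℕ) (G : Type) [Group G] [Finite G] (D : Subgroup G), p.Prime → ∀ (r : ℕ) (a : Fin r → ℕ) (c : ℕ), 1 ≤ c → (∃ i, c ≤ a i) →
    Invariants p D a → ∃ z ∈ D, z ^ p ^ (c - 1) ≠ 1

/-- **SHA** (short-medium; Mathlib only). The elements of order `p`. Proof: transport by the isomorphism `e`; `u ^ p = 1` iff every component satisfies it; in `ZMod (p ^ a i)`, `1 ≤ a i`, exactly `p` elements `x` satisfy `p • x = 0` (`IsAddCyclic.card_nsmul_eq_zero`/`card_nsmul_le` or `ZMod` lemmas); product over `i`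
(`Nat.card_pi`, `Set.univ_pi`). -/
def SHA_stmt : Prop :=
  ∀ (p : ℕ) (G : Type) [Group G] [Finite G] (D : Subgroup G), p.Prime → ∀ (r : ℕ) (a : Fin r → ℕ), (∀ i, 1 ≤ a i) → Invariants p D a →
    {u : G | u ∈ D ∧ u ^ p = 1}.ncard = p ^ r

/-- **SHB** (short-medium; Mathlib only). The elements of order `p` are `p ^ (j - 1)`-th powers. Proof: in `ZMod (p ^ a i)`, `j ≤ a i`, `p • x = 0` implies `x = p ^ (a i - 1) • y` (`p x = 0` modulo `p ^ a i` for `x = x.val`: `p ^ (a i - 1) ∣ x.val`), so `x = p ^ (j - 1) • (p ^ (a i - j) • y)`. -/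
def SHB_stmt : Prop :=
  ∀ (p : ℕ) (G : Type) [Group G] [Finite G] (D : Subgroup G), p.Prime → ∀ (r : ℕ) (a : Fin r → ℕ) (j : ℕ), 1 ≤ j → (∀ i, j ≤ a i) → Invariants p D a →
    ∀ u ∈ D, u ^ p = 1 → ∃ v ∈ D, v ^ p ^ (j - 1) = u

/-- **SHC** (short; Mathlib only). Numbers. Proof: `∏_(i < r) (p ^ (i + 1) - 1) = (p - 1) * ∏_(1 ≤ i < r) (p ^ (i + 1) - 1) ≤ (p - 1) * p ^ (2 + ... + r)`, `2 + ... + r = r (r + 1) / 2 - 1 ≤ j - 1`. -/
def SHC_stmt : Prop :=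
  ∀ (p r j : ℕ), p.Prime → 1 ≤ r → r * (r + 1) ≤ 2 * j → ∏ i ∈ Finset.range r, (p ^ (i + 1) - 1) ≤ (p - 1) * p ^ (j - 1)

end Pool.Agent.LE
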