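import Mathlib
import Pool.Agent.helper12.LE.StmL
import Pool.Agent.helper12.FI5.Fin5
import Pool.Agent.helper67.LE.R2D

/-!
# Project LE (MP_baa4d7_al): the final theorem
-/

set_option autoImplicit false

namespace Pool.Agent.LE

open Pool.Agent.helper58.DC Pool.Agent.DI Pool.Agent.GR Pool.Agent.OB Pool.Agent.DR Pool.Agent.FI Pool.Agent.FI3 Pool.Agent.FI4 Pool.Agent.FIL

/-- The standing hypotheses of the project from the structure of the statement. -/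
theorem FinL_std {p : ℕ}
    (hpr : p.Prime) {M : Ideal (integralClosure ℤ ℂ)} (hM : M.IsMaximal)
    (hp : (p : integralClosure ℤ ℂ) ∈ M) {G : Type} [Group G] [Finite G]
    {χ : G → ℂ} (hχ : χ ∈ Irr G) {D : Subgroup G} {θ : G → ℂ}
    (h : AbelianDefect p M χ D θ) :
    (∃ x : G, Rt p M D x θ χ) ∧ Pool.Agent.FIW.inertial M D θ = (TT M D θ : Set G) ∧
      Pool.Agent.FIV.regular M D θ = RG M D θ ∧
      (∀ i : ℕ, Pool.Agent.FIV.QuotientOrder M D θ i ↔ i = iI M D θ) := by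
  classical
  have hS : Setup p M := ⟨hpr, hM, hp⟩
  have : Fact p.Prime := ⟨hpr⟩
  obtain ⟨x, hx⟩ := Fin_defAt hS hχ h.defect
  have hR : Rt p M D x θ χ := ⟨hχ, hx, h.comm, h.char, h.ind⟩
  have hin : Pool.Agent.FIW.inertial M D θ = (TT M D θ : Set G) := by
    ext g
    exact Tr_inertial M D θ g
  have hrg : Pool.Agent.FIV.regular M D θ = RG M D θ := by
    ext u
    constructor
    · rintro ⟨h1, h2⟩
      exact ⟨h1, fun t ht => h2 t ((Tr_inertial M D θ t).2 ht)⟩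
    · rintro ⟨h1, h2⟩
      exact ⟨h1, fun t ht => h2 t ((Tr_inertial M D θ t).1 ht)⟩
  have hCT : cz D ≤ TT M D θ := by
    intro c hc
    have hc' : c ∈ nz D := cz_le_nz D hc
    refine ⟨hc', ?_⟩
    have h1 : funMap (MulAut.conj c) θ = θ := by
      have hth : θ ∈ IrrOn (cz D) := h.char
      funext y
      have h2 := ((Pool.Agent.DR.AllDI.iB2 G (cz D)).2 θ hth).2.1 y c⁻¹ ((cz D).inv_mem hc)
      unfold funMap
      rw [MulAut.conj_inv_apply]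
      simpa using h2
    rw [h1]
    exact SB.refl _ _
  have hcard : Nat.card (TT M D θ) = iI M D θ * Nat.card (cz D) := by
    have h2 := Subgroup.relIndex_mul_relIndex (⊥ : Subgroup G) (cz D) (TT M D θ) bot_le hCT
    rw [Subgroup.relIndex_bot_left, Subgroup.relIndex_bot_left] at h2
    unfold iI
    rw [mul_comm]
    exact h2.symm
  have hinc : (Pool.Agent.FIW.inertial M D θ).ncard = iI M D θ * Nat.card (cz D) := by
    rw [hin, ← hcard]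
    rfl
  have hCpos : 0 < Nat.card (cz D) := Nat.card_pos
  refine ⟨⟨x, hR⟩, hin, hrg, fun i => ⟨fun hi => ?_, fun hi => ?_⟩⟩
  · have h2 : i * Nat.card (cz D) = iI M D θ * Nat.card (cz D) := by
      rw [← hinc]
      exact hi.symm
    exact Nat.eq_of_mul_eq_mul_right hCpos h2
  · rw [hi]
    exact hinc

theorem FinL_gdt (hLOA : LOA_stmt) {p : ℕ} {M : Ideal (integralClosure ℤ ℂ)} (hS : Setup p M) (hp2 : p ≠ 2)
    {G : Type} [Group G] [Finite G] {D : Subgroup G} {x : G} {θ χ : G → ℂ} (hR : Rt p M D x θ χ) :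
    GDT p D (TT M D θ) := by
  have hL := hLOA p M hS G D x θ χ hR
  exact ⟨hS.pr, hp2, hR.dfa.pgrp, hR.com, cz_le_TT, fun t ht => ht.1, hL.bet⟩

/-- `RegularCoset` and `ManyRegular` give `HLE`. -/
theorem FinL_hle {p : ℕ} {M : Ideal (integralClosure ℤ ℂ)} {G : Type} [Group G] [Finite G] {D : Subgroup G} {θ : G → ℂ}
    (com : ∀ c ∈ D, ∀ d ∈ D, c * d = d * c)
    (hin : Pool.Agent.FIW.inertial M D θ = (TT M D θ : Set G))
    (hrg : Pool.Agent.FIV.regular M D θ = RG M D θ)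
    (hQ : ∀ i : ℕ, Pool.Agent.FIV.QuotientOrder M D θ i ↔ i = iI M D θ) {c h : ℕ}
    (h1 : RegularCoset p M D θ c h) (h2 : ManyRegular p M D θ h) : HLE p c h G D (TT M D θ) := by
  obtain ⟨K, u, s, hK, hu, hpw, hinv, hreg, hord, hcard⟩ := h1
  obtain ⟨i, hi, hir⟩ := h2
  rw [hQ] at hi
  subst hi
  rw [hrg] at hir
  have hT : ∀ t, t ∈ TT M D θ → t ∈ Pool.Agent.FIW.inertial M D θ := fun t ht => by rw [hin]; exact ht
  refine ⟨⟨s, K, u, ⟨hK, hpw, fun t ht => hinv t (hT t ht), hu, fun k hk => ⟨D.mul_mem hu (hK hk), fun t ht htc => ?_⟩, hord⟩, hcard⟩, hir⟩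
  refine hreg t (hT t ht) ?_
  have hk2 : t * k * t⁻¹ ∈ K := hinv t (hT t ht) k hk
  have h3 : t * u * t⁻¹ * u⁻¹ = (u * (k * (t * k * t⁻¹)⁻¹)) * u⁻¹ := by
    have h4 : t * (u * k) * t⁻¹ = u * k := by rw [htc]; group
    have h5 : t * u * t⁻¹ = (t * (u * k) * t⁻¹) * (t * k * t⁻¹)⁻¹ := by group
    rw [h5, h4]
    group
  have h6 : k * (t * k * t⁻¹)⁻¹ ∈ K := K.mul_mem hk (K.inv_mem hk2)
  rw [h3, com u hu _ (hK h6), mul_inv_cancel_right]
  exact h6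

theorem FinL_hze {p : ℕ} {M : Ideal (integralClosure ℤ ℂ)} {G : Type} [Group G] [Finite G] {D : Subgroup G} {θ : G → ℂ}
    (hrg : Pool.Agent.FIV.regular M D θ = RG M D θ)
    (hQ : ∀ i : ℕ, Pool.Agent.FIV.QuotientOrder M D θ i ↔ i = iI M D θ)
    (h2 : ManyRegular p M D θ 0) : HZE p G D (TT M D θ) := by
  obtain ⟨i, hi, hir⟩ := h2
  rw [hQ] at hi
  subst hi
  rw [hrg] at hir
  exact hir

theorem FinL_hwe {p : ℕ} {M : Ideal (integralClosure ℤ ℂ)} {G : Type} [Group G] [Finite G] {D : Subgroup G} {θ : G → ℂ}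
    (hin : Pool.Agent.FIW.inertial M D θ = (TT M D θ : Set G)) {c : ℕ}
    (h2 : LargeCommutators p M D θ c) : HWE p c G D (TT M D θ) := by
  intro t ht htc
  exact h2.2 t (by rw [hin]; exact ht) htc

theorem FinL_ab {M : Ideal (integralClosure ℤ ℂ)} {G : Type} [Group G] {D : Subgroup G} {θ : G → ℂ}
    (hin : Pool.Agent.FIW.inertial M D θ = (TT M D θ : Set G)) (h : AbelianQuotient M D θ) :
    ∀ s ∈ TT M D θ, ∀ t ∈ TT M D θ, s * t * s⁻¹ * t⁻¹ ∈ cz D := fun s hs t ht =>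
  h s (by rw [hin]; exact hs) t (by rw [hin]; exact ht)

/-- The hypothesis of part 1. -/
theorem FinL_one (hLOA : LOA_stmt) (hA : R2A_stmt) (hB : R2B_stmt) (hD : R2Da_stmt) (hRK : RKR_stmt) (hREX : REX_stmt) {p : ℕ}
    (hpr : p.Prime) (hp2 : p ≠ 2) {M : Ideal (integralClosure ℤ ℂ)} (hM : M.IsMaximal)
    (hp : (p : integralClosure ℤ ℂ) ∈ M) {G : Type} [Group G] [Finite G]
    {χ : G → ℂ} (hχ : χ ∈ Irr G) {D : Subgroup G} {θ : G → ℂ}
    (h : AbelianDefect p M χ D θ) (v : ℕ) (hL : LargeExponent p M D θ v) :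
    ∃ c h : ℕ, 1 ≤ c ∧ (∃ z ∈ D, z ^ p ^ (c + v - 1) ≠ 1) ∧ HLE p c h G D (TT M D θ) := by
  have hS : Setup p M := ⟨hpr, hM, hp⟩
  obtain ⟨⟨x, hR⟩, hin, hrg, hQ⟩ := FinL_std hpr hM hp hχ h
  have hG := FinL_gdt hLOA hS hp2 hR
  rcases hL with ⟨a, b, h1, h2, h0, h3⟩ | ⟨e, h2, h1 | ⟨h1, h3⟩⟩ | ⟨r, a, j, i, h1, h2, h3, h4, h5, h6, h7⟩ | ⟨c, k, h0, h1, h2, h3⟩
  · refine ⟨2, 0, by norm_num, hREX p G D hpr 2 ![a, b] (2 + v) (by omega) ⟨0, ?_⟩ h3, (hA p G D _ hG a b h1 h2 h3).1⟩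
    simpa using h0
  · refine ⟨3, 1, by norm_num, hREX p G D hpr 2 ![e, e] (3 + v) (by omega) ⟨0, ?_⟩ h2, (hB p G D _ hG e (by omega) h2).1⟩
    simpa using h1
  · refine ⟨2, 0, by norm_num, hREX p G D hpr 2 ![e, e] (2 + v) (by omega) ⟨0, ?_⟩ h2,
      (hD p G D _ hG e (by omega) h2 (FinL_ab hin h3)).1⟩
    simpa using h1
  · rw [hQ] at h2
    subst h2
    obtain ⟨k, hk⟩ := hRK p M G D θ hR.th hG r a j h3 h4 h5 h1 h7
    exact ⟨j * (r - 1) + 1, k, by omega, hREX p G D hpr r a (j * (r - 1) + 1 + v) (by omega) h6 h1, hk⟩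
  · exact ⟨c, k, h0, h1.2, FinL_hle hR.com hin hrg hQ h2 h3⟩

/-- The hypothesis of part 2. -/
theorem FinL_two (hLOA : LOA_stmt) (hA : R2A_stmt) (hB : R2B_stmt) (hD : R2Da_stmt) (hRK : RKR_stmt) (hRKC : RKC_stmt) {p : ℕ}
    (hpr : p.Prime) (hp2 : p ≠ 2) {M : Ideal (integralClosure ℤ ℂ)} (hM : M.IsMaximal)
    (hp : (p : integralClosure ℤ ℂ) ∈ M) {G : Type} [Group G] [Finite G]
    {χ : G → ℂ} (hχ : χ ∈ Irr G) {D : Subgroup G} {θ : G → ℂ}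
    (h : AbelianDefect p M χ D θ) (hL : LargeExponentN p M D θ) :
    ∃ c h : ℕ, 1 ≤ c ∧ HAnd (HLE p c h) (HWE p c) G D (TT M D θ) := by
  have hS : Setup p M := ⟨hpr, hM, hp⟩
  obtain ⟨⟨x, hR⟩, hin, hrg, hQ⟩ := FinL_std hpr hM hp hχ h
  have hG := FinL_gdt hLOA hS hp2 hR
  rcases hL with ⟨a, b, h1, h2, h3⟩ | ⟨e, h2, h1 | ⟨h1, h3⟩⟩ | ⟨r, a, j, i, h1, h2, h3, h4, h5, h6, h7⟩ | ⟨c, k, h1, h2, h3⟩
  · have h4 := hA p G D _ hG a b (by omega) h2 h3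
    exact ⟨2, 0, by norm_num, h4.1, h4.2.2 h1⟩
  · have h4 := hB p G D _ hG e h1 h2
    exact ⟨3, 1, by norm_num, h4.1, h4.2⟩
  · have h4 := hD p G D _ hG e h1 h2 (FinL_ab hin h3)
    exact ⟨2, 0, by norm_num, h4.1, h4.2.2⟩
  · rw [hQ] at h2
    subst h2
    obtain ⟨k, hk⟩ := hRK p M G D θ hR.th hG r a j h3 h4 h5 h1 h7
    exact ⟨j * (r - 1) + 1, k, by omega, hk, hRKC p M G D θ hR.th hG r a (j * (r - 1) + 1) (by omega) h6 h1⟩
  · exact ⟨c, k, h1.1, FinL_hle hR.com hin hrg hQ h2 h3, FinL_hwe hin h1⟩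

/-- The hypothesis for the heights. -/
theorem FinL_zero (hLOA : LOA_stmt) (hA : R2A_stmt) (hC : R2Ca_stmt) (hD : R2Da_stmt) (hRKZ : RKZ_stmt) {p : ℕ}
    (hpr : p.Prime) (hp2 : p ≠ 2) {M : Ideal (integralClosure ℤ ℂ)} (hM : M.IsMaximal)
    (hp : (p : integralClosure ℤ ℂ) ∈ M) {G : Type} [Group G] [Finite G]
    {χ : G → ℂ} (hχ : χ ∈ Irr G) {D : Subgroup G} {θ : G → ℂ}
    (h : AbelianDefect p M χ D θ) (hL : FewNonRegular p M D θ) : HZE p G D (TT M D θ) := by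
  have hS : Setup p M := ⟨hpr, hM, hp⟩
  obtain ⟨⟨x, hR⟩, hin, hrg, hQ⟩ := FinL_std hpr hM hp hχ h
  have hG := FinL_gdt hLOA hS hp2 hR
  rcases hL with ⟨a, b, h1, h2, h3⟩ | ⟨e, i, h1, h2, h3⟩ | ⟨i, h1, h2⟩ | h1
  · exact (hA p G D _ hG a b h1 h2 h3).2.1
  · rw [hQ] at h2
    subst h2
    rcases h3 with h3 | h3
    · exact hC p G D _ hG e h3.1 h1 h3.2
    · exact (hD p G D _ hG e h3.1 h1 (FinL_ab hin h3.2)).2.1
  · rw [hQ] at h1
    subst h1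
    exact hRKZ p M G D θ hR.th hG h2
  · exact FinL_hze hrg hQ h1

/-- An extension with `E_B = E[B]` has the sums of `G`. -/
theorem FinL_ext (p : ℕ) (hpr : p.Prime) (M : Ideal (integralClosure ℤ ℂ)) (hM : M.IsMaximal)
    (hp : (p : integralClosure ℤ ℂ) ∈ M) (G : Type) [Group G] [Finite G] (χ : G → ℂ) (hχ : χ ∈ Irr G)
    (h0 : ∑ᶠ d : ℤ, altSum (trivE G) p M χ d ⊤ = 0) (E A : Type) [Group E] [Group A] [Finite E]
    (X : Extension G E A) (hX : Pool.Agent.BQ.AB X M χ ≤ Pool.Agent.BQ.AI X M χ) (U : Subgroup A) :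
    ∑ᶠ d : ℤ, altSum X p M χ d U = 0 := by
  have : Fact p.Prime := ⟨hpr⟩
  by_cases hU : Pool.Agent.BQ.AI X M χ ≤ U ∧ U ≤ Pool.Agent.BQ.AB X M χ
  · rw [← h0]
    refine finsum_congr fun d => ?_
    have hZ := Pool.Agent.BQ.All.qZRO G E A X p M hM hp χ hχ d
    unfold altSum
    refine finsum_congr fun c => ?_
    congr 2
    rw [kC_trivE]
    unfold kC
    refine Nat.card_congr (Equiv.subtypeEquivRight fun ψ => ?_)
    constructor
    · rintro ⟨h1, h2, h3, -⟩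
      exact ⟨h1, h2, h3⟩
    · rintro ⟨h1, h2, h3⟩
      refine ⟨h1, h2, h3, ?_⟩
      set V := (X.stab c.out.1 ψ).map X.proj with hV
      have hVV : Pool.Agent.BQ.AI X M χ ≤ V ∧ V ≤ Pool.Agent.BQ.AB X M χ := by
        by_contra hn
        have h4 := (hZ V hn).1 c.out.1 c.out.2
        unfold kC at h4
        have hfin : Finite {ψ : G → ℂ // ψ ∈ IrrOn (nrm c.out.1) ∧ Defect p (nrm c.out.1) ψ d ∧ Induces M ψ χ ∧
            (X.stab c.out.1 ψ).map X.proj = V} := by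
          have h5 : (IrrOn (nrm c.out.1)).Finite := (Pool.Agent.DR.AllDI.iB2 G (nrm c.out.1)).1
          have : Finite (IrrOn (nrm c.out.1)) := h5
          exact Finite.of_injective (fun x => (⟨x.1, x.2.1⟩ : IrrOn (nrm c.out.1)))
            (fun a b hab => Subtype.ext (congrArg (fun t => t.1) hab))
        have h6 : Nonempty {ψ : G → ℂ // ψ ∈ IrrOn (nrm c.out.1) ∧ Defect p (nrm c.out.1) ψ d ∧ Induces M ψ χ ∧
            (X.stab c.out.1 ψ).map X.proj = V} := ⟨⟨ψ, h1, h2, h3, hV.symm⟩⟩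
        have h7 := Nat.card_pos_iff.2 ⟨h6, hfin⟩
        omega
      exact le_antisymm (hVV.2.trans (hX.trans hU.1)) (hU.2.trans (hX.trans hVV.1))
  · have h1 : ∀ d : ℤ, altSum X p M χ d U = 0 := fun d => (Pool.Agent.BQ.All.qZRO G E A X p M hM hp χ hχ d U hU).2
    simp [h1]

/-- If all heights are zero, only one `d` occurs. -/
theorem FinL_km (p : ℕ) (hpr : p.Prime) (M : Ideal (integralClosure ℤ ℂ)) (G E A : Type) [Group G] [Group E] [Group A] [Finite G]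
    (X : Extension G E A) (χ : G → ℂ)
    (D : Subgroup G) (hD : IsPGroup p D) (hK : HeightZero p M χ D) (U : Subgroup A)
    (h0 : ∑ᶠ d : ℤ, altSum X p M χ d U = 0) (d : ℤ) : altSum X p M χ d U = 0 := by
  have : Fact p.Prime := ⟨hpr⟩
  obtain ⟨a, ha⟩ := IsPGroup.iff_card.1 hD
  have h1 : ∀ d : ℤ, d ≠ a → altSum X p M χ d U = 0 := by
    intro d hd
    unfold altSum
    refine finsum_eq_zero_of_forall_eq_zero fun c => ?_
    have h2 : kC X p M χ d U c.out.1 = 0 := by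
      unfold kC
      have : IsEmpty {ψ : G → ℂ // ψ ∈ IrrOn (nrm c.out.1) ∧ Defect p (nrm c.out.1) ψ d ∧ Induces M ψ χ ∧
          (X.stab c.out.1 ψ).map X.proj = U} := by
        refine ⟨fun ψ => ?_⟩
        obtain ⟨ψ, h3, h4, h5, -⟩ := ψ
        obtain ⟨n, h6, h7⟩ := h4
        obtain ⟨n', h8, h9⟩ := hK a ha c.out.1 c.out.2 ψ h3 h5
        have h10 : n = n' := by
          have : (n : ℂ) = n' := by rw [← h6, ← h8]
          exact_mod_cast this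
        apply hd
        rw [h7, h9, h10]
      exact Nat.card_eq_zero.2 (Or.inl this)
    rw [h2]
    simp
  by_cases hd : d = a
  · subst hd
    rw [← h0]
    exact (finsum_eq_single (fun d : ℤ => altSum X p M χ d U) (a : ℤ) h1).symm
  · exact h1 d hd

/-- The alternating sums, `O_p(G) = 1`, `E_B = E[B]`. -/
theorem FinL_dade (hLOA : LOA_stmt) (hA : R2A_stmt) (hB : R2B_stmt) (hC : R2Ca_stmt) (hD : R2Da_stmt) (hRK : RKR_stmt) (hREX : REX_stmt) (hRKZ : RKZ_stmt)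
    (hP1S : P1S_stmt) (hP1D : P1D_stmt) (p : ℕ) (hpr : p.Prime) (hp2 : p ≠ 2) (M : Ideal (integralClosure ℤ ℂ)) (hM : M.IsMaximal)
    (hp : (p : integralClosure ℤ ℂ) ∈ M) (G : Type) [Group G] [Finite G]
    (χ : G → ℂ) (hχ : χ ∈ Irr G) (D : Subgroup G) (θ : G → ℂ)
    (h : AbelianDefect p M χ D θ) (hG : IsOp p (⊤ : Subgroup G) ⊥) (hL : LargeExponent p M D θ 0)
    (E A : Type) [Group E] [Group A] [Finite E] (X : Extension G E A)
    (hX : Pool.Agent.BQ.AB X M χ ≤ Pool.Agent.BQ.AI X M χ) (U : Subgroup A) :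
    ∑ᶠ d : ℤ, altSum X p M χ d U = 0 ∧
      (FewNonRegular p M D θ ∨ HeightZero p M χ D → ∀ d : ℤ, altSum X p M χ d U = 0) := by
  have hS : Setup p M := ⟨hpr, hM, hp⟩
  obtain ⟨⟨x, hR⟩, -⟩ := FinL_std hpr hM hp hχ h
  obtain ⟨c, k, hc, hz, hH⟩ := FinL_one hLOA hA hB hD hRK hREX hpr hp2 hM hp hχ h 0 hL
  rw [Nat.add_zero] at hz
  have h0 := hP1S p M hS hp2 c k hc G D x θ χ hR hH hz hG
  have h00 := FinL_ext p hpr M hM hp G χ hχ h0 E A X hX U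
  refine ⟨h00, fun h1 d => ?_⟩
  rcases h1 with h1 | h1
  · have h2 := hP1D p M hS hp2 c k hc G D x θ χ hR hH (FinL_zero hLOA hA hC hD hRKZ hpr hp2 hM hp hχ h h1) hz hG d
    exact ExtE p hpr M hM hp G χ hχ d h2 E A X hX U
  · exact FinL_km p hpr M G E A X χ D hR.dfa.pgrp h1 U h00 d

/-- `k(B) = k(B_N)` and `l(B) = l(B_N)`, every `G`. -/
theorem FinL_kl (hLOA : LOA_stmt) (hA : R2A_stmt) (hB : R2B_stmt) (hD : R2Da_stmt) (hRK : RKR_stmt) (hRKC : RKC_stmt)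
    (hP2L : P2L_stmt) (hHHE : HHE_stmt) (hAMG : AMG_stmt) (hXL : XL_stmt)
    (p : ℕ) (hpr : p.Prime) (hp2 : p ≠ 2) (M : Ideal (integralClosure ℤ ℂ)) (hM : M.IsMaximal)
    (hp : (p : integralClosure ℤ ℂ) ∈ M) (G : Type) [Group G] [Finite G]
    (χ : G → ℂ) (hχ : χ ∈ Irr G) (D : Subgroup G) (θ : G → ℂ)
    (h : AbelianDefect p M χ D θ) (hL : LargeExponentN p M D θ) :
    Nat.card {ψ : G → ℂ // ψ ∈ Irr G ∧ Induces M ψ χ} =
      Nat.card {ψ : G → ℂ // ψ ∈ IrrOn (Subgroup.normalizer (D : Set G)) ∧ Induces M ψ χ} ∧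
    Pool.Agent.FIV.brauerNumber p M χ ⊤ =
      Pool.Agent.FIV.brauerNumber p M χ (Subgroup.normalizer (D : Set G)) := by
  have hS : Setup p M := ⟨hpr, hM, hp⟩
  obtain ⟨⟨x, hR⟩, -⟩ := FinL_std hpr hM hp hχ h
  obtain ⟨c, k, hc, hH⟩ := FinL_two hLOA hA hB hD hRK hRKC hpr hp2 hM hp hχ h hL
  have hMN := hP2L p M hS hp2 c k hc
  constructor
  · have h1 := hAMG p M hS _ (hHHE p hpr c k).2.2.2.1 hMN G D x θ χ hR hH
    have h2 : (Blk M χ (⊤ : Subgroup G)).ncard = Nat.card {ψ : G → ℂ // ψ ∈ Irr G ∧ Induces M ψ χ} := by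
      have h3 : (Blk M χ (⊤ : Subgroup G)).ncard =
        Nat.card {ψ : G → ℂ // ψ ∈ IrrOn (⊤ : Subgroup G) ∧ Induces M ψ χ} := rfl
      rw [h3]
      refine Nat.card_congr (Equiv.subtypeEquivRight fun ψ => ?_)
      have h4 := Pool.Agent.GR.All.dTI G ψ
      constructor
      · rintro ⟨h5, h6⟩
        exact ⟨h4.1 h5, h6⟩
      · rintro ⟨h5, h6⟩
        exact ⟨h4.2 h5, h6⟩
    rw [← h2, h1]
    rfl
  · have h1 := hMN G D x θ χ hR hH
    have hb : ∀ H : Subgroup G, Pool.Agent.FIV.brauerNumber p M χ H = Pool.Agent.FIW.brauerNumber p M χ H :=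
      fun _ => rfl
    rw [hb, hb]
    rw [hXL p M hS G χ ⊤, hXL p M hS G χ (nz D)] at h1
    exact_mod_cast h1

/-- All heights are zero, in `B` and in its Brauer correspondent. -/
theorem FinL_ht (hLOA : LOA_stmt) (hA : R2A_stmt) (hC : R2Ca_stmt) (hD : R2Da_stmt) (hRKZ : RKZ_stmt) (hHHE : HHE_stmt) (hHZH : HZH_stmt) (hHNG : HNG_stmt)
    (p : ℕ) (hpr : p.Prime) (hp2 : p ≠ 2) (M : Ideal (integralClosure ℤ ℂ)) (hM : M.IsMaximal)
    (hp : (p : integralClosure ℤ ℂ) ∈ M) (G : Type) [Group G] [Finite G]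
    (χ : G → ℂ) (hχ : χ ∈ Irr G) (D : Subgroup G) (θ : G → ℂ)
    (h : AbelianDefect p M χ D θ) (hF : FewNonRegular p M D θ) (a : ℕ) (ha : Nat.card D = p ^ a) :
    (∀ ψ ∈ Irr G, Induces M ψ χ → Defect p ⊤ ψ a) ∧
    ∀ ψ ∈ IrrOn (Subgroup.normalizer (D : Set G)), Induces M ψ χ →
      Defect p (Subgroup.normalizer (D : Set G)) ψ a := by
  have hS : Setup p M := ⟨hpr, hM, hp⟩
  obtain ⟨⟨x, hR⟩, -⟩ := FinL_std hpr hM hp hχ h
  have hZ := FinL_zero hLOA hA hC hD hRKZ hpr hp2 hM hp hχ h hF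
  have hHT := hHZH p M hS hp2
  constructor
  · intro ψ hψ hi
    exact hHT G D x θ χ hR hZ ψ ⟨(Pool.Agent.GR.All.dTI G ψ).2 hψ, hi⟩ a ha
  · intro ψ hψ hi
    refine hHNG p M hS _ (hHHE p hpr 1 0).2.2.1 hHT G D x θ χ hR hZ D (nz D) hR.dfa.pgrp Subgroup.le_normalizer ?_ le_rfl ψ ⟨hψ, hi⟩ a ha
    exact cz_le_nz D

end Pool.Agent.LE
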