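import Mathlib
import Pool.Agent.helper12.LE.FinL
import Pool.Agent.helper51.L5.PRO5

/-!
# Project LE (MP_baa4d7_al): the final theorem, extensions with `E_B / E[B]` cyclic of order prime to `p`
-/

set_option autoImplicit false

namespace Pool.Agent.LE

open Pool.Agent.helper58.DC Pool.Agent.DI Pool.Agent.GR Pool.Agent.OB Pool.Agent.DR Pool.Agent.FI Pool.Agent.FI3 Pool.Agent.FI4 Pool.Agent.FIL

/-- Reduction to an element whose order has only prime divisors of `n`. -/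
theorem FinM_red {A : Type} [Group A] [Finite A] (s : A) (n : ℕ) (hn : 0 < n) :
    ∃ m j : ℕ, m = n * j + 1 ∧ ∀ l : ℕ, l.Prime → l ∣ orderOf (s ^ m) → l ∣ n := by
  have ho : 0 < orderOf s := orderOf_pos s
  obtain ⟨n₁, n₂, e, hc, hp⟩ := Pool.Agent.L5.PRO5_split n (orderOf s) ho
  have hn₂ : 0 < n₂ := by
    rcases Nat.eq_zero_or_pos n₂ with h | h
    · rw [h, mul_zero] at e
      omega
    · exact h
  have hk : 1 ≤ n₂ ^ n.totient := Nat.one_le_iff_ne_zero.2 (pow_ne_zero _ hn₂.ne')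
  have h1 : n ∣ n₂ ^ n.totient - 1 := (Nat.modEq_iff_dvd' hk).1 (Nat.ModEq.pow_totient hc).symm
  obtain ⟨j, hj⟩ := h1
  refine ⟨n₂ ^ n.totient, j, by omega, fun l hl h => ?_⟩
  refine hp l hl (h.trans (orderOf_dvd_of_pow_eq_one ?_))
  obtain ⟨r, hr⟩ := dvd_pow_self n₂ (Nat.totient_pos.2 hn).ne'
  rw [← pow_mul, hr]
  have h3 : n₂ * r * n₁ = orderOf s * r := by
    rw [e]
    ring
  rw [h3, pow_mul, pow_orderOf_eq_one, one_pow]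

theorem FinM_cyc {A : Type} [Group A] (N : Subgroup A) (s : A) (n j m : ℕ) (hs : s ^ n ∈ N) (hm : m = n * j + 1) (a : A)
    (ha : ∃ k : ℤ, s ^ k * a ∈ N) : ∃ k : ℤ, (s ^ m) ^ k * a ∈ N := by
  obtain ⟨k, hk⟩ := ha
  refine ⟨k, ?_⟩
  have h1 : (s ^ m) ^ k = (s ^ n) ^ ((j : ℤ) * k) * s ^ k := by
    rw [hm, ← zpow_natCast, ← zpow_natCast, ← zpow_mul, ← zpow_mul, ← zpow_add]
    congr 1
    push_cast
    ring
  rw [h1, mul_assoc]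
  exact N.mul_mem (N.zpow_mem hs _) hk

/-- The alternating sums, `O_p(G) = 1`, `E_B / E[B]` cyclic of order prime to `p`. -/
theorem FinM_dade (hLOA : LOA_stmt) (hA : R2A_stmt) (hB : R2B_stmt) (hC : R2Ca_stmt) (hD : R2Da_stmt) (hRK : RKR_stmt) (hREX : REX_stmt) (hRKZ : RKZ_stmt)
    (hHHE : HHE_stmt) (hBDE : BDE_stmt) (hHZH : HZH_stmt) (hDC5 : Pool.Agent.L5.DC5_stmt) (hEJ5 : Pool.Agent.L5.EJ5_stmt)
    (p : ℕ) (hpr : p.Prime) (hp2 : p ≠ 2) (M : Ideal (integralClosure ℤ ℂ)) (hM : M.IsMaximal)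
    (hp : (p : integralClosure ℤ ℂ) ∈ M) (G : Type) [Group G] [Finite G]
    (χ : G → ℂ) (hχ : χ ∈ Irr G) (D : Subgroup G) (θ : G → ℂ)
    (h : AbelianDefect p M χ D θ) (hG : IsOp p (⊤ : Subgroup G) ⊥)
    (E A : Type) [Group E] [Group A] [Finite E] (X : Extension G E A) (s : A) (n v : ℕ) (hn : 0 < n)
    (hsn : s ^ n ∈ Pool.Agent.BQ.AI X M χ) (hpn : ¬ p ∣ n) (hJ : ¬ p ^ (v + 1) ∣ Pool.Agent.MAPW.J2 n)
    (hs : ∀ a ∈ Pool.Agent.BQ.AB X M χ, ∃ k : ℤ, s ^ k * a ∈ Pool.Agent.BQ.AI X M χ)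
    (hL : LargeExponent p M D θ v) (U : Subgroup A) :
    ∑ᶠ d : ℤ, altSum X p M χ d U = 0 ∧
      (FewNonRegular p M D θ ∨ HeightZero p M χ D → ∀ d : ℤ, altSum X p M χ d U = 0) := by
  have hS : Setup p M := ⟨hpr, hM, hp⟩
  obtain ⟨⟨x, hR⟩, -⟩ := FinL_std hpr hM hp hχ h
  have hfA : Finite A := Finite.of_surjective X.proj X.proj_surjective
  obtain ⟨m, j, hm, hmp⟩ := FinM_red s n hn
  have hs' : ∀ a ∈ Pool.Agent.BQ.AB X M χ, ∃ k : ℤ, (s ^ m) ^ k * a ∈ Pool.Agent.BQ.AI X M χ :=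
    fun a ha => FinM_cyc _ s n j m hsn hm a (hs a ha)
  obtain ⟨hm1, hm2⟩ := hEJ5 p n (orderOf (s ^ m)) (v + 1) hpr hn (orderOf_pos _) hpn hmp hJ
  obtain ⟨c, k, hc, hz, hH⟩ := FinL_one hLOA hA hB hD hRK hREX hpr hp2 hM hp hχ h v hL
  have h0 := (hDC5 p M hS (HLE p c k) (hHHE p hpr c k).1 c v hc (hBDE p M hS hp2 c k) G E A X hG D x θ χ hR hH hz
    (s ^ m) hm1 hm2 hs').1 U
  refine ⟨h0, fun h1 d => ?_⟩
  rcases h1 with h1 | h1
  · refine (hDC5 p M hS (HAnd (HLE p c k) (HZE p)) (hHHE p hpr c k).2.2.2.2.1 c v hc ?_ G E A X hG D x θ χ hR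
      ⟨hH, FinL_zero hLOA hA hC hD hRKZ hpr hp2 hM hp hχ h h1⟩ hz (s ^ m) hm1 hm2 hs').2 ?_ d U
    · intro G' _ _ D' x' θ' χ' hR' hH'
      exact hBDE p M hS hp2 c k G' D' x' θ' χ' hR' hH'.1
    · intro G' _ _ D' x' θ' χ' hR' hH'
      exact hHZH p M hS hp2 G' D' x' θ' χ' hR' hH'.2
  · exact FinL_km p hpr M G E A X χ D hR.dfa.pgrp h1 U h0 d

end Pool.Agent.LE
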