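import Mathlib
import Pool.Agent.helper12.LE.FinM
import Pool.Agent.helper58.LE.P2L

/-!
# Project LE (MP_baa4d7_al): the final theorems for an arbitrary hereditary hypothesis `H` with the bound `l(B) ≤ p ^ c`
-/

set_option autoImplicit false

namespace Pool.Agent.LE

open Pool.Agent.helper58.DC Pool.Agent.DI Pool.Agent.GR Pool.Agent.OB Pool.Agent.DR Pool.Agent.FI Pool.Agent.FI3 Pool.Agent.FI4 Pool.Agent.FIL Pool.Agent.LE.AllG

theorem FinG_and {p : ℕ} {H H' : HP} (h : Her p H) (h' : Her p H') : Her p (HAnd H H') :=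
  ⟨fun G _ _ D T N a b c d e f => ⟨h.sub G D T N a b c d e f.1, h'.sub G D T N a b c d e f.2⟩,
    fun G _ _ D T g a b c f => ⟨h.cj G D T g a b c f.1, h'.cj G D T g a b c f.2⟩⟩

/-- The alternating sums, `O_p(G) = 1`, `E_B / E[B]` cyclic of order prime to `p`. -/
theorem FinG_dade (hLOA : LOA_stmt) (hA : R2A_stmt) (hC : R2Ca_stmt) (hD : R2Da_stmt) (hRKZ : RKZ_stmt)
    (hHHE : HHE_stmt) (hHZH : HZH_stmt) (hDC5 : Pool.Agent.L5.DC5_stmt) (hEJ5 : Pool.Agent.L5.EJ5_stmt)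
    (p : ℕ) (hpr : p.Prime) (hp2 : p ≠ 2) (M : Ideal (integralClosure ℤ ℂ)) (hM : M.IsMaximal)
    (hp : (p : integralClosure ℤ ℂ) ∈ M) (H : HP) (hHer : Her p H) (c : ℕ) (hc : 1 ≤ c) (hBD : BDH p M H (p ^ c))
    (G : Type) [Group G] [Finite G]
    (χ : G → ℂ) (hχ : χ ∈ Irr G) (D : Subgroup G) (θ : G → ℂ)
    (h : AbelianDefect p M χ D θ) (hG : IsOp p (⊤ : Subgroup G) ⊥)
    (E A : Type) [Group E] [Group A] [Finite E] (X : Extension G E A) (s : A) (n v : ℕ) (hn : 0 < n)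
    (hsn : s ^ n ∈ Pool.Agent.BQ.AI X M χ) (hpn : ¬ p ∣ n) (hJ : ¬ p ^ (v + 1) ∣ Pool.Agent.MAPW.J2 n)
    (hs : ∀ a ∈ Pool.Agent.BQ.AB X M χ, ∃ k : ℤ, s ^ k * a ∈ Pool.Agent.BQ.AI X M χ)
    (hz : ∃ z ∈ D, z ^ p ^ (c + v - 1) ≠ 1) (hH : H G D (TT M D θ)) (U : Subgroup A) :
    ∑ᶠ d : ℤ, altSum X p M χ d U = 0 ∧
      (FewNonRegular p M D θ ∨ HeightZero p M χ D → ∀ d : ℤ, altSum X p M χ d U = 0) := by
  have hS : Setup p M := ⟨hpr, hM, hp⟩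
  obtain ⟨⟨x, hR⟩, -⟩ := FinL_std hpr hM hp hχ h
  have hfA : Finite A := Finite.of_surjective X.proj X.proj_surjective
  obtain ⟨m, j, hm, hmp⟩ := FinM_red s n hn
  have hs' : ∀ a ∈ Pool.Agent.BQ.AB X M χ, ∃ k : ℤ, (s ^ m) ^ k * a ∈ Pool.Agent.BQ.AI X M χ :=
    fun a ha => FinM_cyc _ s n j m hsn hm a (hs a ha)
  obtain ⟨hm1, hm2⟩ := hEJ5 p n (orderOf (s ^ m)) (v + 1) hpr hn (orderOf_pos _) hpn hmp hJ
  have h0 := (hDC5 p M hS H hHer c v hc hBD G E A X hG D x θ χ hR hH hz (s ^ m) hm1 hm2 hs').1 U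
  refine ⟨h0, fun h1 d => ?_⟩
  rcases h1 with h1 | h1
  · refine (hDC5 p M hS (HAnd H (HZE p)) (FinG_and hHer (hHHE p hpr c 0).2.2.1) c v hc ?_ G E A X hG D x θ χ hR
      ⟨hH, FinL_zero hLOA hA hC hD hRKZ hpr hp2 hM hp hχ h h1⟩ hz (s ^ m) hm1 hm2 hs').2 ?_ d U
    · intro G' _ _ D' x' θ' χ' hR' hH'
      exact hBD G' D' x' θ' χ' hR' hH'.1
    · intro G' _ _ D' x' θ' χ' hR' hH'
      exact hHZH p M hS hp2 G' D' x' θ' χ' hR' hH'.2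
  · exact FinL_km p hpr M G E A X χ D hR.dfa.pgrp h1 U h0 d

/-- `k(B) = k(B_N)` and `l(B) = l(B_N)`, every `G`. -/
theorem FinG_kl (hNIL : NIL_stmt) (hDVZ : DVZ_stmt) (hHHE : HHE_stmt) (hAMG : AMG_stmt) (hXL : XL_stmt)
    (p : ℕ) (hpr : p.Prime) (hp2 : p ≠ 2) (M : Ideal (integralClosure ℤ ℂ)) (hM : M.IsMaximal)
    (hp : (p : integralClosure ℤ ℂ) ∈ M) (H : HP) (hHer : Her p H) (c : ℕ) (hc : 1 ≤ c) (hBD : BDH p M H (p ^ c))
    (G : Type) [Group G] [Finite G]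
    (χ : G → ℂ) (hχ : χ ∈ Irr G) (D : Subgroup G) (θ : G → ℂ)
    (h : AbelianDefect p M χ D θ) (hH : H G D (TT M D θ)) (hW : HWE p c G D (TT M D θ)) :
    Nat.card {ψ : G → ℂ // ψ ∈ Irr G ∧ Induces M ψ χ} =
      Nat.card {ψ : G → ℂ // ψ ∈ IrrOn (Subgroup.normalizer (D : Set G)) ∧ Induces M ψ χ} ∧
    Pool.Agent.FIV.brauerNumber p M χ ⊤ =
      Pool.Agent.FIV.brauerNumber p M χ (Subgroup.normalizer (D : Set G)) := by
  have hS : Setup p M := ⟨hpr, hM, hp⟩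
  obtain ⟨⟨x, hR⟩, -⟩ := FinL_std hpr hM hp hχ h
  have hHer' : Her p (HAnd H (HWE p c)) := FinG_and hHer (hHHE p hpr c 0).2.1
  have hMN : MNH p M (HAnd H (HWE p c)) := by
    refine gMNG p M hS _ hHer' (p ^ c) ?_ ?_ (P2L_dvh hDVZ p M hS hp2 _ c hc fun G _ _ D T hH => hH.2)
    · intro G _ _ D x θ χ hR _ R hRD hRn hRP
      exact hNIL p M hS hp2 G D x θ χ hR R hRD hRn hRP
    · intro G _ _ D x θ χ hR hH
      exact hBD G D x θ χ hR hH.1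
  constructor
  · have h1 := hAMG p M hS _ hHer' hMN G D x θ χ hR ⟨hH, hW⟩
    have h2 : (Blk M χ (⊤ : Subgroup G)).ncard = Nat.card {ψ : G → ℂ // ψ ∈ Irr G ∧ Induces M ψ χ} := by
      have h3 : (Blk M χ (⊤ : Subgroup G)).ncard =
        Nat.card {ψ : G → ℂ // ψ ∈ IrrOn (⊤ : Subgroup G) ∧ Induces M ψ χ} := rfl
      rw [h3]
      refine Nat.card_congr (Equiv.subtypeEquivRight fun ψ => ?_)
      have h4 := Pool.Agent.GR.All.dTI G ψ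
      constructor
      · rintro ⟨h5, h6⟩
        exact ⟨h4.1 h5, h6⟩
      · rintro ⟨h5, h6⟩
        exact ⟨h4.2 h5, h6⟩
    rw [← h2, h1]
    rfl
  · have h1 := hMN G D x θ χ hR ⟨hH, hW⟩
    have hb : ∀ H : Subgroup G, Pool.Agent.FIV.brauerNumber p M χ H = Pool.Agent.FIW.brauerNumber p M χ H :=
      fun _ => rfl
    rw [hb, hb]
    rw [hXL p M hS G χ ⊤, hXL p M hS G χ (nz D)] at h1
    exact_mod_cast h1

end Pool.Agent.LE
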