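import Mathlib
import Pool.Agent.helper12.LE.FinG
import Pool.Agent.helper12.LE.DefsZ
import Pool.Agent.helper70.LZ.DefsZ

/-!
# Project LE (MP_baa4d7_al): the final theorem, version 2 (with BOUND-Z)
-/

set_option autoImplicit false

namespace Pool.Agent.LE

open Pool.Agent.helper58.DC Pool.Agent.DI Pool.Agent.GR Pool.Agent.OB Pool.Agent.DR Pool.Agent.FI Pool.Agent.FI3 Pool.Agent.FI4 Pool.Agent.FIL

/-- The alternating sums, `O_p(G) = 1`, `E_B / E[B]` cyclic of order prime to `p`. -/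
theorem FinZ_dade (hLOA : LOA_stmt) (hA : R2A_stmt) (hB : R2B_stmt) (hC : R2Ca_stmt) (hD : R2Da_stmt) (hRK : RKR_stmt) (hREX : REX_stmt) (hRKZ : RKZ_stmt)
    (hHHE : HHE_stmt) (hBDE : BDE_stmt) (hHZH : HZH_stmt) (hHEZ : HEZ_stmt) (hBDZ : BDZ_stmt)
    (hDC5 : Pool.Agent.L5.DC5_stmt) (hEJ5 : Pool.Agent.L5.EJ5_stmt)
    (p : ℕ) (hpr : p.Prime) (hp2 : p ≠ 2) (M : Ideal (integralClosure ℤ ℂ)) (hM : M.IsMaximal)
    (hp : (p : integralClosure ℤ ℂ) ∈ M) (G : Type) [Group G] [Finite G]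
    (χ : G → ℂ) (hχ : χ ∈ Irr G) (D : Subgroup G) (θ : G → ℂ)
    (h : AbelianDefect p M χ D θ) (hG : IsOp p (⊤ : Subgroup G) ⊥)
    (E A : Type) [Group E] [Group A] [Finite E] (X : Extension G E A) (s : A) (n v : ℕ) (hn : 0 < n)
    (hsn : s ^ n ∈ Pool.Agent.BQ.AI X M χ) (hpn : ¬ p ∣ n) (hJ : ¬ p ^ (v + 1) ∣ Pool.Agent.MAPW.J2 n)
    (hs : ∀ a ∈ Pool.Agent.BQ.AB X M χ, ∃ k : ℤ, s ^ k * a ∈ Pool.Agent.BQ.AI X M χ)
    (hL : LargeExponent p M D θ v ∨ LargeCyclic p D v) (U : Subgroup A) :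
    ∑ᶠ d : ℤ, altSum X p M χ d U = 0 ∧
      (FewNonRegular p M D θ ∨ HeightZero p M χ D → ∀ d : ℤ, altSum X p M χ d U = 0) := by
  rcases hL with hL | ⟨c, hc, ⟨-, z, hzD, hz⟩, hcard⟩
  · exact FinM_dade hLOA hA hB hC hD hRK hREX hRKZ hHHE hBDE hHZH hDC5 hEJ5 p hpr hp2 M hM hp G χ hχ D θ h hG E A X
      s n v hn hsn hpn hJ hs hL U
  · have hz2 : z ^ p ^ (c - 1) ≠ 1 := by
      intro h1
      apply hz
      have h2 : c + v - 1 = (c - 1) + v := by omega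
      rw [h2, pow_add, pow_mul, h1, one_pow]
    exact FinG_dade hLOA hA hC hD hRKZ hHHE hHZH hDC5 hEJ5 p hpr hp2 M hM hp (HBE p c) (hHEZ p hpr c).1 c hc
      (hBDZ p M ⟨hpr, hM, hp⟩ hp2 c hc) G χ hχ D θ h hG E A X s n v hn hsn hpn hJ hs ⟨z, hzD, hz⟩ ⟨⟨z, hzD, hz2⟩, hcard⟩ U

end Pool.Agent.LE
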