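import Mathlib
import Pool.Agent.helper16.L5.LOE5
import Pool.Agent.helper18.L5.TGP5
import Pool.Agent.helper2.L5.TG5
import Pool.Agent.helper22.L5.DCT5
import Pool.Agent.helper23.L5.FTG5
import Pool.Agent.helper24.L5.FR5
import Pool.Agent.helper24.L5.FXA
import Pool.Agent.helper26.L5.FRD5
import Pool.Agent.helper26.L5.TOG5
import Pool.Agent.helper28.L5.DFR5
import Pool.Agent.helper28.L5.LEL
import Pool.Agent.helper3.L5.ACJ5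
import Pool.Agent.helper3.L5.LBE5
import Pool.Agent.helper30.L5.EDV5
import Pool.Agent.helper32.L5.CTG5
import Pool.Agent.helper34.L5.IHE5
import Pool.Agent.helper34.L5.LOC5
import Pool.Agent.helper38.L5.FRA5
import Pool.Agent.helper39.L5.FS5
import Pool.Agent.helper40.L5.IHN5
import Pool.Agent.helper41.L5.CNV
import Pool.Agent.helper43.L5.EJ5
import Pool.Agent.helper43.L5.KDG5
import Pool.Agent.helper49.L5.DH5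
import Pool.Agent.helper51.L5.PRO5
import Pool.Agent.helper55.L5.DC5
import Pool.Agent.helper55.L5.DZ5
import Pool.Agent.helper57.L5.TEI5
import Pool.Agent.helper58.L5.MN5E
import Pool.Agent.helper6.L5.LCG5
import Pool.Agent.helper60.L5.NZV
import Pool.Agent.helper61.L5.FRC5
import Pool.Agent.helper71.L5.TRE5
import Pool.Agent.helper75.L5.TG5E
import Pool.Agent.helper80.L5.FRE5
import Pool.Agent.helper84.L5.DV5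
import Pool.Agent.helper84.L5.ECN
import Pool.Agent.helper84.L5.FD5
import Pool.Agent.helper84.L5.OB5
import Pool.Agent.helper88.L5.FIN5
import Pool.Agent.helper88.L5.FR5E
import Pool.Agent.helper88.L5.MLT5
import Pool.Agent.helper9.L5.TRE
import Pool.Agent.helper90.L5.FRB5
import Pool.Agent.helper91.L5.MN5
import Pool.Agent.helper91.L5.TOE5
import Pool.Agent.helper92.L5.LEI
import Pool.Agent.helper96.L5.OUP5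
import Pool.Agent.helper97.L5.DV5E
import Pool.Agent.helper58.FI.AllC
import Pool.Agent.helper22.FI.AllA
import Pool.Agent.helper59.FI.AllB
import Pool.Agent.helper83.GR.All
import Pool.Agent.helper35.DR.AllDI
import Pool.Agent.helper35.DR.All
import Pool.Agent.helper83.FI.AllR
import Pool.Agent.helper12.FI.All
import Pool.Agent.helper1.FI.AllQ2
import Pool.Agent.helper1.FI3.AllH3
import Pool.Agent.helper58.FI3F.AllF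
import Pool.Agent.helper59.FI4.AllP4
import Pool.Agent.helper70.FI4.AllK
import Pool.Agent.helper59.FI4.AllI
import Pool.Agent.helper58.LE.AllG
import Pool.Agent.helper58.LE.AllD
import Pool.Agent.helper35.BQ.All
import Pool.Agent.helper25.BQ.DWN
import Pool.Agent.helper58.FI4E.AllE
import Pool.Agent.helper70.FI4E.AllE3
import Pool.Agent.helper22.OB.All

/-!
# MP_baa4d7_al, project LE, block L5 (specification: helper37/L5): all rows closed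
-/

set_option autoImplicit false

namespace Pool.Agent.L5.AllL5

open Pool.Agent.helper58.DC Pool.Agent.DI Pool.Agent.GR Pool.Agent.OB Pool.Agent.DR Pool.Agent.FI Pool.Agent.FI3 Pool.Agent.FI4 Pool.Agent.FI4I Pool.Agent.FI4E Pool.Agent.LE

theorem mECN : L5.ECN_stmt := L5.ECN
theorem mEJ5 : L5.EJ5_stmt := L5.EJ5
theorem mFIN5 : L5.FIN5_stmt := L5.FIN5
theorem mOUP5 : L5.OUP5_stmt := L5.OUP5
theorem mPRO5 : L5.PRO5_stmt := L5.PRO5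
theorem mDCT5 : L5.DCT5_stmt := L5.DCT5
theorem mFTG5 : L5.FTG5_stmt := L5.FTG5
theorem mTGP5 : L5.TGP5_stmt := L5.TGP5
theorem mTRE : L5.TRE_stmt :=
  L5.TRE FI4I.AllI.iTR1 FI4I.AllI.iTR2 FI4I.AllI.iTR4
theorem mTRE5 : L5.TRE5_stmt :=
  L5.TRE5 FI4I.AllI.iTR1 FI4I.AllI.iTR2 FI4I.AllI.iTR4 FI4E.AllE.eTRA
theorem mLEI : L5.LEI_stmt := L5.LEI FI.AllC.cFEQ FI.AllQ.qQCJ
theorem mLEL : L5.LEL_stmt := L5.LEL FI.AllA.dTPR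
theorem mACJ5 : L5.ACJ5_stmt :=
  L5.ACJ5 FI4.AllP4.pLOA FI4I.AllI.iBKN FI4I.AllI.iBKV FI.AllC.cFSI FI.AllC.cFEQ FI.AllA.dCJG
    FI4I.AllI.iRTN FI4I.AllI.iTR1 FI4I.AllI.iTR2 FI4I.AllI.iTR3 FI.AllA.dTPR FI4I.AllI.iCJR
theorem mLOC5 : L5.LOC5_stmt :=
  L5.LOC5 mACJ5 mDCT5 FI.AllC.cFSI FI.AllC.cFEQ FI4I.AllI.iBKV GR.All.dB2
theorem mIHN5 : L5.IHN5_stmt :=
  L5.IHN5 FI4I.AllI.iRTN LE.AllG.gHRN LE.AllG.gHRC FI4I.AllI.iBKV FI.AllA.dEXB mTRE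
    FI4I.AllI.iTR3 mECN FI.AllC.cFEQ FI.AllC.cFSI
theorem mTOG5 : L5.TOG5_stmt := L5.TOG5 mFTG5 mLEI mECN FI.AllC.cFEQ
theorem mTG5 : L5.TG5_stmt := L5.TG5 mTOG5 mLOC5 mIHN5 FI3F.AllF.cFMX3 mLEL
theorem mFRE5 : L5.FRE5_stmt := L5.FRE5 DR.All.rCRE GR.All.dB2
theorem mFRC5 : L5.FRC5_stmt :=
  L5.FRC5 GR.All.dIDM GR.All.dCCI GR.All.dCVF FI.AllR.rEVM FI.AllQ.qQRS GR.All.dB2
theorem mFRD5 : L5.FRD5_stmt := L5.FRD5 mFRC5 FI.AllQ.qQRS GR.All.dB2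
theorem mFRB5 : L5.FRB5_stmt :=
  L5.FRB5 DR.All.rCFA DR.All.rCCJ FI3F.AllF.cFOV3 FI4.AllP4.pLOA FI4I.AllI.iRTN FI.AllC.cFEQ
    FI.AllC.cFSI FI.AllA.dCJG FI4I.AllI.iTR1 FI4I.AllI.iTR2 FI4I.AllI.iTR3 FI.AllA.dTPR GR.All.dB2
theorem mFRA5 : L5.FRA5_stmt :=
  L5.FRA5 FI4.AllP4.pLOA FI4.AllP4.pFRA4 FI.AllA.dCJG GR.All.dIDM FI3.AllH3.hEPR GR.All.dB2
theorem mFR5 : L5.FR5_stmt :=
  L5.FR5 mFRA5 mFRB5 mFRD5 mFRE5 FI.AllQ.qQRS FI.AllR.rEVM GR.All.dIDM GR.All.dCCI FI.AllQ.qQEI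
    FI.AllC.cFBC GR.All.dB2
theorem mCNV : L5.CNV_stmt :=
  L5.CNV GR.All.dBR2 FI.AllA.dCNTL FI.AllA.dSYL FI.AllA.dTPR GR.All.dB2 FI.AllA.dSTC
theorem mNZV : L5.NZV_stmt :=
  L5.NZV FI3.AllH3.hHTU FI3.AllH3.hTRW FI.AllQ2.dQID FI.AllR.rRR1 FI.AllA.dTPR
theorem mKDG5 : L5.KDG5_stmt :=
  L5.KDG5 mNZV mCNV FI.AllA.dDEX FI.AllA.dCLS FI.AllA.dTPR OB.All.uDG2 FI4.AllK.kKUP
    FI4.AllK.kKBL FI4.AllK.kKIN FI4.AllK.kKG1 DR.All.rCFA FI.AllC.cFOV FI.AllB.dCON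
theorem mDV5 : L5.DV5_stmt :=
  L5.DV5 mKDG5 LE.AllG.gDVKdv FI4.AllK.kKG1 FI4.AllK.kKCH FI4.AllK.kKLE FI4.AllK.kKIN
    FI4.AllK.kKBL FI4.AllK.kKUN GR.All.dBCL GR.All.dIM FI4.AllK.kLBN
theorem mOB5 : L5.OB5_stmt :=
  L5.OB5 FI4I.AllI.iRTN LE.AllG.gHRN FI.AllA.dEXB mTRE mECN mLEL
theorem mMN5 : L5.MN5_stmt := L5.MN5 mTG5 mDV5 FI4.AllK.kOPD mOB5 mFR5 mECN mLEL
theorem mFS5 : L5.FS5_stmt :=
  L5.FS5 mMN5 mTG5 mECN GR.All.dB2 FI.AllC.cFT0 FI4.AllK.kKRG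
theorem mFD5 : L5.FD5_stmt :=
  L5.FD5 mMN5 mTG5 mECN FI.AllC.cFT0 LE.AllG.gHNG FI4.AllK.kKRG
theorem mFXA : L5.FXA_stmt :=
  L5.FXA FI4E.AllE.eBAA FI.AllC.cFEQ FI.AllC.cFSI GR.All.dIM
theorem mDFR5 : L5.DFR5_stmt :=
  L5.DFR5 FI4E.AllE.eDFA FI.AllB.dCON FI4E.AllE.eBAA FI.AllC.cFEQ FI.AllC.cFSI GR.All.dIM
theorem mTEI5 : L5.TEI5_stmt := L5.TEI5 FI4E.AllE.eTSI FI4E.AllE.eTSJ FI.AllC.cFEQ
theorem mLBE5 : L5.LBE5_stmt :=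
  L5.LBE5 mACJ5 mDCT5 FI4E.AllE.eBAA FI.AllC.cFEQ FI.AllC.cFSI FI4I.AllI.iBKV
theorem mLOE5 : L5.LOE5_stmt :=
  L5.LOE5 mLBE5 FI4E.AllE.eTSI FI4E.AllE.eUNS FI.AllC.cFSI FI.AllC.cFEQ FI4E.AllE.eBAA
    FI4I.AllI.iBKV GR.All.dB2 FI.AllQ.qQEI FI.AllA.dBLE
theorem mLCG5 : L5.LCG5_stmt := L5.LCG5 mLOE5 FI4E.AllE.eTSI FI4E.AllE.eBAA FI.AllC.cFEQ
theorem mIHE5 : L5.IHE5_stmt :=
  L5.IHE5 FI4I.AllI.iRTN LE.AllG.gHRN LE.AllG.gHRC FI4I.AllI.iBKV FI.AllA.dEXB mTRE5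
    FI4E.AllE.eTRA FI4I.AllI.iTR2 FI4I.AllI.iTR3 mECN FI.AllC.cFEQ FI.AllC.cFSI mOUP5
theorem mCTG5 : L5.CTG5_stmt := L5.CTG5 mFXA mTEI5 mECN FI.AllC.cFEQ
theorem mTOE5 : L5.TOE5_stmt := L5.TOE5 mTGP5 mCTG5 mFXA mECN FI4E.AllE.eBAA FI.AllC.cFEQ
theorem mTG5E : L5.TG5E_stmt :=
  L5.TG5E mTOE5 mLCG5 mIHE5 FI3F.AllF.cFMX3 mTEI5 mOUP5 FI4E.AllE.eBAA mLEL
theorem mFR5E : L5.FR5E_stmt :=
  L5.FR5E mFRA5 mFRB5 mFRD5 mFRE5 mFXA FI4E.AllE.eBAA FI.AllQ.qQRS FI.AllR.rEVM GR.All.dIDM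
    GR.All.dCCI FI.AllQ.qQEI FI.AllC.cFBC GR.All.dB2
theorem mEDV5 : L5.EDV5_stmt := L5.EDV5 FI4E.AllE.eOMX
theorem mDV5E : L5.DV5E_stmt :=
  L5.DV5E FI4E.AllE3.eEOQ (FI4E.AllE3.eEUN FI4E.AllE.eUNS) mEDV5 FI4E.AllE3.eEQA FI4E.AllE3.eEAU
    mKDG5 FI4.AllK.kKG1 FI4.AllK.kKBL GR.All.dIM mEJ5
theorem mMLT5 : L5.MLT5_stmt := L5.MLT5 FI.AllQ.qQEI FI4E.AllE.eBAA GR.All.dB2 FI.AllR.rCHC
theorem mMN5E : L5.MN5E_stmt :=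
  L5.MN5E mTG5E mDV5E FI4.AllK.kOPD mOB5 mFR5E mECN mLEL mFXA mTEI5 mPRO5 mEJ5 mOUP5 mMLT5
    mFIN5 FI.AllC.cFBC FI.AllA.dEXB FI4E.AllE.eBAA
theorem mDZ5 : L5.DZ5_stmt :=
  L5.DZ5 FI4E.AllE.eOMX FI4E.AllE.eOMR mDFR5 mTG5E mMN5E FI4E.AllE.eBAA mECN mOUP5
theorem mDH5 : L5.DH5_stmt := L5.DH5 DR.AllDI.iA13 LE.AllG.gHNG
theorem mDC5 : L5.DC5_stmt :=
  L5.DC5 mDZ5 mDH5 BQ.All.qZRO BQ.DWN mEJ5 GR.All.dB2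

end Pool.Agent.L5.AllL5
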