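import Pool.Agent.helper70.LE.Defs3
import Pool.Agent.helper37.L5.Spec

/-!
# Project LE (MP_baa4d7_al): DVZ, P1S, P1D (`helper70/LE/Defs3`) from DV5, FS5, FD5 (`helper37/L5/Spec`)
-/

set_option autoImplicit false

namespace Pool.Agent.LE

open Pool.Agent.helper58.DC Pool.Agent.DI Pool.Agent.GR Pool.Agent.OB Pool.Agent.DR Pool.Agent.FI Pool.Agent.FI3 Pool.Agent.FI4

theorem Glue_DVZ (hDV5 : Pool.Agent.L5.DV5_stmt) : DVZ_stmt :=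
  fun p M hS _ G _ _ D x θ χ hR c hc R hR1 hR2 z hz hzR => hDV5 p M hS G D x θ χ hR c hc R hR1 hR2 z hz hzR

theorem Glue_P1S (hFS5 : Pool.Agent.L5.FS5_stmt) (hHHE : HHE_stmt) (hBDE : BDE_stmt) : P1S_stmt :=
  fun p M hS hp2 c h hc G _ _ D x θ χ hR hH hz hG =>
    hFS5 p M hS (HLE p c h) (hHHE p hS.pr c h).1 c hc (hBDE p M hS hp2 c h) G D x θ χ hR hH hz hG

theorem Glue_P1D (hFD5 : Pool.Agent.L5.FD5_stmt) (hHHE : HHE_stmt) (hBDE : BDE_stmt) (hHZH : HZH_stmt) : P1D_stmt := by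
  intro p M hS hp2 c h hc G _ _ D x θ χ hR hH hZ hz hG
  refine hFD5 p M hS (HAnd (HLE p c h) (HZE p)) (hHHE p hS.pr c h).2.2.2.2.1 c hc ?_ ?_ G D x θ χ hR ⟨hH, hZ⟩ hz hG
  · intro G' _ _ D' x' θ' χ' hR' hH'
    exact hBDE p M hS hp2 c h G' D' x' θ' χ' hR' hH'.1
  · intro G' _ _ D' x' θ' χ' hR' hH'
    exact hHZH p M hS hp2 G' D' x' θ' χ' hR' hH'.2

end Pool.Agent.LE
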