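import Pool.Agent.helper12.LE.SpecB
import Pool.Agent.helper70.LE.Defs3
import Pool.Agent.helper1.LE.HTL

/-!
# Project LE (MP_baa4d7_al), the bound `1 ≤ l(B) ≤ p ^ c` under `HLE p c h`
-/

set_option autoImplicit false

namespace Pool.Agent.LE

open Pool.Agent.helper58.DC Pool.Agent.DI Pool.Agent.GR Pool.Agent.OB Pool.Agent.DR Pool.Agent.FI Pool.Agent.FI3 Pool.Agent.FI4 Pool.Agent.FI4C Pool.Agent.FI4B

theorem BDE_num (l K D P q : ℕ) (hK : 0 < K) (hP : 0 < P) (h1 : l * K * P ≤ D) (h2 : D ≤ q * P * K) : l ≤ q := by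
  have h3 : l * (K * P) ≤ q * (K * P) := by
    calc l * (K * P) = l * K * P := by ring
      _ ≤ D := h1
      _ ≤ q * P * K := h2
      _ = q * (K * P) := by ring
  exact Nat.le_of_mul_le_mul_right h3 (Nat.mul_pos hK hP)

theorem BDE (hKBL : KBL_stmt) : BDE_stmt := by
  intro p M hS hp2 c h G _ _ D x θ χ hR hH
  obtain ⟨⟨g, K, u, hK, hc⟩, hrg⟩ := hH
  have hKRC : KRC p M D θ h g K u := ⟨hK.le, hK.pw, hK.inv, hK.mem, hK.reg, hK.ord⟩
  obtain ⟨l, h1, h2, h3⟩ := hKBL p M hS hp2 G D x θ χ hR h g K u hKRC (by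
    intro ψ hψ a ha k hk
    have h4 := HTL_ht hS hp2 G D x θ χ hR (h + 1) (by
      rw [show 2 * (h + 1) = 2 * h + 2 by ring]
      exact hrg) ψ hψ a ha k hk
    push_cast at h4
    omega)
  refine ⟨l, h1, h2, BDE_num l (Nat.card K) (Nat.card D) (p ^ g) (p ^ c) Nat.card_pos (pow_pos hS.pr.pos g) h3 ?_⟩
  rw [← pow_add]
  exact hc

end Pool.Agent.LE
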