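import Mathlib
import Pool.Agent.helper83.LE.SpecB
import Pool.Agent.helper83.FI4B.Spec
import Pool.Agent.helper1.FI4.SpecHT
import Pool.Agent.helper58.LE.GenDefs

/-!
# Project LE (MP_baa4d7_al), block BOUND-K: `l(B) |K| p ^ g ≤ |D|`

Pages: `/team-store/LE_bound_helper12.md`, `/team-store/LE_bound2_helper95.md` (refereed by helper26, helper59, helper95). No condition on the inertial quotient.
`K ≤ D ^ (p ^ (h + 1))` is invariant under `T = TT M D θ`, `u K ⊆ RG` for some `u ∈ D`, `u ^ p ^ g ∉ K` (or `g = 0`), all heights in the block are at most `h`. THEN `l(B) * |K| * p ^ g ≤ |D|` (row KBL).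
PROOF. `X` = the characters of the block with `ψ (x ^ m) = ψ x`, `m` as in `Gm2`; `l(B) ≤ |X|` (CNL of `helper83/LE/SpecB`). `Z ψ u = ∑_(k ∈ K) ε (u k) dd ψ (u k)` (`ZK`). `Z ψ u / |K|` is `IntAt` and `Z ψ u ≠ 0` (KZU), so by norms and AM-GM the average of the `‖Z ψ (u ^ s)‖ ^ 2`, `p ∤ s`, is at least `|K| ^ 2` (KAM).
The elements `u ^ (1 + p s) k`, `s < p ^ g`, `k ∈ K` are pairwise not `T`-conjugate (KAS), so `∑_ψ ‖∑_(s, k) ε dd ψ (u ^ (1 + p s) k)‖ ^ 2 = p ^ g |K| |D|` (KOR), and for `ψ ∈ X` the inner sum is `p ^ g Z ψ u` (KZS). So `|X| |K| ^ 2 ≤ |K| |D| / p ^ g` (KXB).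

ROWS: one file `Pool/Agent/<seat>/LE/XXX.lean`, `import Pool.Agent.helper12.LE.SpecB`, `set_option autoImplicit false`, `namespace Pool.Agent.LE`, the `open` line below, auxiliary lemmas prefixed `XXX_`, no sorry, no straight double quotes in the file, no `convert`, no `congr!`.
The rows named in the docstring are hypotheses (exact line in the lock note); proved rows of FI, FI3, FI4, FI4B, GR, DI, LE may be imported or added as further hypotheses at the end (tell helper12).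
-/

set_option autoImplicit false

namespace Pool.Agent.LE

open Pool.Agent.helper58.DC Pool.Agent.DI Pool.Agent.GR Pool.Agent.OB Pool.Agent.DR Pool.Agent.FI Pool.Agent.FI3 Pool.Agent.FI4 Pool.Agent.FI4C Pool.Agent.FI4B

/-! ## 1. Pure rows -/

/-- **KPA** (medium; from LCG, LCO; PORT of BPS, `helper27/FI4B/BPS.lean`; import that file and use `BPS_nu` as it is). Proof: `R` empty: `ε = 1`, `W = 1`, `f = 0`-free: take `f = β χ` (nothing to prove on `R`; `f (u ^ s) = f u` from the hypothesis). Otherwise `κ` from `BPS_nu`; `u₀ ∈ R`, `δ = n u₀`, `ε u = 1` if `p ∣ n u - δ`, `-1` otherwise, as in BPS;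
`p ∣ ε u * n u - δ` on `R`; `ε (u ^ s) = ε u` because `n (u ^ s) = n u` (`PD.pow`). Let `N` be given, `E = p ^ N = 2 r + 1`, `f = β χ * κ ^ r` (`LGC`: LCG), `W = |I| ^ r * δ ^ E`, prime to `p`. For `u ∈ R`: `f u = n u * d χ u * (|I| * (n u) ^ 2) ^ r = |I| ^ r * (ε u * n u) ^ E * (ε u * d χ u)` (`ε u ^ (E + 1) = 1`, `E + 1 = 2 (r + 1)`),
and `(ε u * n u) ^ E = δ ^ E + p ^ (N + 1) * e`, `e : ℤ` (`dvd_sub_pow_of_dvd_sub` with exponent `N`). `z = |I| ^ r * p * e * ε u * d χ u` is integral (`PD.int`). `f (u ^ s) = f u` if `β χ (u ^ s) = β χ u` for all `u`: `κ (u ^ s) = κ u`. -/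
def KPA_stmt : Prop :=
  ∀ (p : ℕ) (M : Ideal (integralClosure ℤ ℂ)) (D : Type) [CommGroup D] [Fintype D] (X : Type) [Fintype X]
    (R : Set D) (I : Subgroup (MulAut D)) (β d : X → D → ℂ) (n : D → ℤ), PD p M R I β d n →
    (∀ s : ℕ, ¬ p ∣ s → ∃ π : Equiv.Perm X, ∀ χ u, β χ (u ^ s) = β (π χ) u) →
    ∃ ε : D → ℤ, (∀ u, ε u = 1 ∨ ε u = -1) ∧ (∀ u ∈ R, ∀ s : ℕ, ¬ p ∣ s → ε (u ^ s) = ε u) ∧
      ∀ N : ℕ, ∃ W : ℤ, ¬ (p : ℤ) ∣ W ∧ ∀ χ, ∃ f : D → ℂ, LGC f ∧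
        (∀ s : ℕ, ¬ p ∣ s → (∀ u, β χ (u ^ s) = β χ u) → ∀ u, f (u ^ s) = f u) ∧
        ∀ u ∈ R, ∃ z : ℂ, IsIntegral ℤ z ∧ f u = (W : ℂ) * ((ε u : ℂ) * d χ u) + (p : ℂ) ^ N * z

/-- **KCS** (medium; pure; from LCO (1), LCG). Coset sums. Proof: `f u = ∑ l, m l * lv l u` (`finsum_eq_sum_of_fintype`), `|D| * m l = ∑ u, f u * lv l u⁻¹` (`sum_lv_lv`), so `m (l ^ s) = m l` for `s ≡ 1` modulo `p` (`u ↦ u ^ s` is a permutation of `D`; `lv (l ^ s) u = lv l (u ^ s)`). `∑_(k ∈ K) lv l k = |K|` if `l = 1` on `K`, `0` otherwise. So `b = ∑_(l = 1 on K) m l * lv l u`,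
and `f u - b = ∑_(l ∈ L') m l * lv l u`, `L' = {l | l ≠ 1 on K}`. For `l ∈ L'` `l ^ p ^ j ≠ 1` (`k = v ^ p ^ j`), so `orderOf l = p ^ i` with `i > j`. Let `μ l = l ^ (p ^ (i - j))`, of order `p ^ j`, and `q l = ` the set (or finset) `{l * (μ l) ^ t | t < p ^ j}` = `{l ^ (1 + p ^ (i - j) t)}`: it has `p ^ j` elements, is contained in `L'`, the exponents are `≡ 1`
modulo `p`, and `q l' = q l` for `l' ∈ q l` (`l'` and `l` generate the same cyclic group, `μ l'` and `μ l` the same subgroup). On `q l` `m` is constant, and `∑_(l' ∈ q l) m l' * lv l' u = m l * lv l u * ∑_(t < p ^ j) (lv (μ l) u) ^ t`, which is `p ^ j * m l * lv l u` or `0` (`lv (μ l) u` is a root of unity of order dividing `p ^ j`; geometric sum).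
Sum over the classes: `Finset.sum_fiberwise_of_maps_to` for the map `l ↦ q l` (values in `Finset (D →* ℂˣ)`) on `L'`: the fibre of `q l` is `q l`. So `f u - b = p ^ j * z` with `z` integral. `b` is integral (`lv` values are roots of unity; LCO (2) or `lv_int`). -/
def KCS_stmt : Prop :=
  ∀ (p : ℕ), p.Prime → ∀ (D : Type) [CommGroup D] [Fintype D], IsPGroup p D → ∀ (j : ℕ) (K : Subgroup D),
    (∀ k ∈ K, ∃ v : D, v ^ p ^ j = k) → ∀ f : D → ℂ, LGC f → (∀ s : ℕ, s ≡ 1 [MOD p] → ∀ u, f (u ^ s) = f u) →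
    ∀ u : D, ∃ b z : ℂ, IsIntegral ℤ b ∧ IsIntegral ℤ z ∧ ∑ᶠ k : K, f (u * k) = (Nat.card K : ℂ) * b ∧
      f u = b + (p : ℂ) ^ j * z

/-! ## 2. Signs, units, conjugates -/

section

variable {G : Type} [Group G]

/-- The signs, and the numbers `ε u * dd ψ u`, `u ∈ RG`, up to a factor prime to `p`, modulo `p ^ N`. -/
structure KSg (p : ℕ) (M : Ideal (integralClosure ℤ ℂ)) (D : Subgroup G) (θ : G → ℂ) (ε : G → ℤ) : Prop where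
  pm : ∀ u, ε u = 1 ∨ ε u = -1
  pw : ∀ u ∈ RG M D θ, ∀ s : ℕ, ¬ p ∣ s → ε (u ^ s) = ε u
  ap : ∀ N : ℕ, ∃ W : ℤ, ¬ (p : ℤ) ∣ W ∧ ∀ ψ ∈ IrrOn (⊤ : Subgroup G), ∃ f : D → ℂ, LGC f ∧
    (∀ m : ℕ, Gm2 p (Nat.card G) m → PR m ψ → ∀ s : ℕ, s ≡ 1 [MOD p] → ∀ u, f (u ^ s) = f u) ∧
    ∀ u : D, (u : G) ∈ RG M D θ → ∃ z : ℂ, IsIntegral ℤ z ∧
      f u = (W : ℂ) * ((ε u : ℂ) * dd M (Cz (⊤ : Subgroup G) (u : G)) θ ψ u) + (p : ℂ) ^ N * z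

/-- The regular coset `u K`. -/
structure KRC (p : ℕ) (M : Ideal (integralClosure ℤ ℂ)) (D : Subgroup G) (θ : G → ℂ) (h g : ℕ) (K : Subgroup G) (u : G) : Prop where
  le : K ≤ D
  pw : ∀ k ∈ K, ∃ v ∈ D, v ^ p ^ (h + 1) = k
  inv : ∀ t ∈ TT M D θ, ∀ k ∈ K, t * k * t⁻¹ ∈ K
  mem : u ∈ D
  reg : ∀ k ∈ K, u * k ∈ RG M D θ
  ord : g = 0 ∨ u ^ p ^ g ∉ K

/-- The height of `ψ` is at most `h`. -/
def KHt (p : ℕ) (D : Subgroup G) (h : ℕ) (ψ : G → ℂ) : Prop :=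
  ∃ d k : ℕ, ψ 1 = d ∧ d ≠ 0 ∧ k ≤ h ∧ padicValNat p (Nat.card G) + k = padicValNat p (Nat.card D) + padicValNat p d

/-- The coset sum. -/
noncomputable def ZK (M : Ideal (integralClosure ℤ ℂ)) (θ : G → ℂ) (ε : G → ℤ) (K : Subgroup G) (ψ : G → ℂ) (u : G) : ℂ :=
  ∑ᶠ k ∈ K, (ε (u * k) : ℂ) * dd M (Cz (⊤ : Subgroup G) (u * k)) θ ψ (u * k)

end

/-- **KSG** (medium; from KPA, BRI, QID, NU4, OR4, DOR4, GRG, RGF, QEU, QCG, QDI, LCG, ZT4; PORT of BST, `helper44/FI4B/BST.lean`; import that file for its auxiliary lemmas `BST_cz_bot BST_crt BST_pow BST_PR BST_perm`). Proof: as BST with KPA in place of BPS. `PD`: `int` is QDI; `pow` is RGF (2) (`p ∤ s`) and NU4 (`n (u ^ s) = n u`).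
Let `Gm2 p |G| m`, `PR m ψ`, `s ≡ 1` modulo `p`: `p ∤ s`, `Gm2.gen` gives `j` with `m ^ j ≡ s` modulo every `p ^ k ∣ |G|`, `m ^ j` is prime to `|G|` and `≡ 1` modulo every `d ∣ |G|` prime to `p` (`Gm2.reg`): as at the end of BST, `β ψ (u ^ s) = β ψ u` for all `u ∈ D`, so `f (u ^ s) = f u`. `ε` on `G`: `ε u` of KPA on `D`, `1` outside. -/
def KSG_stmt : Prop :=
  ∀ (p : ℕ) (M : Ideal (integralClosure ℤ ℂ)), Setup p M → p ≠ 2 → ∀ (G : Type) [Group G] [Finite G]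
    (D : Subgroup G) (x : G) (θ χ : G → ℂ), LoA p M D x θ χ → ∃ ε : G → ℤ, KSg p M D θ ε

/-- **KUT** (medium; from UNV, HTD, HTZ4, QNW, QID, RR1, TRW, QHT-facts; compare UDD, `Pool/Agent/*/FI4/UDD.lean` (copy it), and `HTL_iap` of `helper1/LE/HTL.lean`). `dd ψ u / p ^ k` is a unit if `ψ` has height `k`. Proof: as UDD with `P = ⊥`: `L = cz ⊥ = ⊤`, `K' = Cz L u`, `c = ev ψ₀ j w`, `ev ψ i (u * w) = c * dd`, `A = (|G| / |D|) * (ev ψ i (u * w) / ψ 1) = c * X`,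
`X = (|G| / |D|) * (dd / ψ 1)`, `B = (|K'| / |D|) * (c / ψ₀ 1) = m * c`, `m = |K'| / (|D| * ψ₀ 1)` a natural number (HTD). `A`, `B` are `IntAt` and not `InM` (UNV). `m` is prime to `p`: HTZ4 for `P = zpowers u` (`cz P = Cz ⊤ u`; the heights in the good block of `K'` are zero). `B * X = m * A`: so `X = m * A / B` is `IntAt` and not `InM`.
`dd / p ^ k = X * (|D| * d / (|G| * p ^ k))`, and the `p`-adic valuation of the rational number `|D| * d / (|G| * p ^ k)` is `0`, so it and its inverse are `IntAt` (`IAP_int`). -/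
def KUT_stmt : Prop :=
  ∀ (p : ℕ) (M : Ideal (integralClosure ℤ ℂ)), Setup p M → ∀ (G : Type) [Group G] [Finite G]
    (D : Subgroup G) (x : G) (θ χ : G → ℂ), LoA p M D x θ χ → ∀ u ∈ D,
    Good p M D (Cz (⊤ : Subgroup G) u) θ → Good p M D (Cz (cz (⊥ : Subgroup G)) u) θ → ∀ ψ ∈ Bl M (⊤ : Subgroup G) θ, ∀ d k : ℕ, ψ 1 = d → d ≠ 0 →
    padicValNat p (Nat.card G) + k = padicValNat p (Nat.card D) + padicValNat p d →
    IntAt M (dd M (Cz (⊤ : Subgroup G) u) θ ψ u / (p : ℂ) ^ k) ∧ ¬ InM M (dd M (Cz (⊤ : Subgroup G) u) θ ψ u / (p : ℂ) ^ k)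

/-- **KRP** (short; from RGF). Powers of a regular coset. Proof: `u ^ s ∈ D`. `reg`: let `k ∈ K`; `s` is prime to `|K|` (a power of `p`), so `k = k' ^ s` with `k' ∈ K` (`powCoprime` for the type `K`, or Bezout), `u ^ s * k = (u * k') ^ s` (`D` commutative), in `RG` by RGF (2). `ord`: if `(u ^ s) ^ p ^ g ∈ K` then, with `s * s' ≡ 1` modulo `|D|`, `u ^ p ^ g = ((u ^ s) ^ p ^ g) ^ s' ∈ K`. -/
def KRP_stmt : Prop :=
  ∀ (p : ℕ) (M : Ideal (integralClosure ℤ ℂ)), p.Prime → ∀ (G : Type) [Group G] [Finite G] (D : Subgroup G) (θ : G → ℂ),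
    θ ∈ IrrOn (cz D) → IsPGroup p D → (∀ c ∈ D, ∀ d ∈ D, c * d = d * c) → ∀ (h g : ℕ) (K : Subgroup G) (u : G),
    KRC p M D θ h g K u → ∀ s : ℕ, ¬ p ∣ s → KRC p M D θ h g K (u ^ s)

/-- **KZU** (medium; from KCS, KUT, GRG, DOR4-free). `Z / |K|` is integral at `M` and `Z ≠ 0`. Proof: `|K| = p ^ b` (`K ≤ D`). `ψ ∈ IrrOn ⊤`. `d`, `k ≤ h` from `KHt`. `N = b + h + 1`; `W`, `f` from `KSg.ap`. For `k' ∈ K`: `f (u k') = W * (ε (u k') * dd ψ (u k')) + p ^ N * z k'` (`KRC.reg`). Sum over `K`: KCS (`j = h + 1`, the subgroup `K.subgroupOf D` of the type `D`, `KRC.pw`; `f (u ^ s) = f u`: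
`KSg.ap` and `PR m ψ`) gives `|K| * b' = W * Z + p ^ N * z₁`, `f u = b' + p ^ (h + 1) * z₂`, `z₁`, `z₂`, `b'` integral. With `p ^ N = |K| * p ^ (h + 1)`: `W * (Z / |K|) = b' - p ^ (h + 1) * z₁ = f u - p ^ (h + 1) * (z₁ + z₂) = W * ε u * dd ψ u + p ^ (h + 1) * z₃`, `z₃` integral (the term `k' = 1` of `f u`). `W⁻¹` is `IntAt` (`InM.intCast`, `IntAt.inv`), so
`Z / |K| = ε u * dd ψ u + p ^ (h + 1) * y`, `y` is `IntAt` (integral numbers are `IntAt`). `dd ψ u` is integral (QDI): `Z / |K|` is `IntAt`. Divide by `p ^ k`: `Z / (|K| * p ^ k) = ε u * (dd ψ u / p ^ k) + p * (p ^ (h - k) * y)`; the first summand is not `InM` (KUT, `ε u = ± 1`, GRG for both `Good`), the second one is `InM`. So `Z ≠ 0`. -/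
def KZU_stmt : Prop :=
  ∀ (p : ℕ) (M : Ideal (integralClosure ℤ ℂ)), Setup p M → p ≠ 2 → ∀ (G : Type) [Group G] [Finite G]
    (D : Subgroup G) (x : G) (θ χ : G → ℂ), LoA p M D x θ χ → ∀ ε : G → ℤ, KSg p M D θ ε →
    ∀ (h g : ℕ) (K : Subgroup G) (u : G), KRC p M D θ h g K u → ∀ m : ℕ, Gm2 p (Nat.card G) m →
    ∀ ψ ∈ Bl M (⊤ : Subgroup G) θ, PR m ψ → KHt p D h ψ →
    IntAt M (ZK M θ ε K ψ u / Nat.card K) ∧ ZK M θ ε K ψ u ≠ 0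

/-- **KZJ** (medium; from DPX, RGF). The conjugates of `Z`. Proof: `n = p * |D|`. For `k ∈ K` let `P k` be the polynomial of DPX for `L = ⊤` and the element `u * k` (`(u k) ^ n = 1`). `P = ∑_(k ∈ K) ε (u * k) • P k`. Let `p ∤ s` (then `s` is prime to `n`, a power of `p`). `k ↦ k ^ s` is a permutation of `K`, `u ^ s * k ^ s = (u * k) ^ s`,
so `ZK ψ (u ^ s) = ∑_(k ∈ K) ε ((u k) ^ s) * dd ψ ((u k) ^ s) = ∑_k ε (u k) * aeval (ζ ^ s) (P k)` (`KSg.pw`, DPX). -/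
def KZJ_stmt : Prop :=
  ∀ (p : ℕ) (M : Ideal (integralClosure ℤ ℂ)), Setup p M → p ≠ 2 → ∀ (G : Type) [Group G] [Finite G]
    (D : Subgroup G) (x : G) (θ χ : G → ℂ), LoA p M D x θ χ → ∀ ε : G → ℤ, KSg p M D θ ε →
    ∀ (h g : ℕ) (K : Subgroup G) (u : G), KRC p M D θ h g K u → ∀ ψ ∈ IrrOn (⊤ : Subgroup G), ∀ ζ : ℂ,
    IsPrimitiveRoot ζ (p * Nat.card D) → ∃ P : Polynomial ℤ, ∀ s : ℕ, ¬ p ∣ s →
      ZK M θ ε K ψ (u ^ s) = Polynomial.aeval (ζ ^ s) P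

/-- **KAM** (medium; from KZU, KZJ, KRP, NRC; compare the end of HT4, `helper1/FI4/HT4.lean`). Norms. Proof: `n = p * |D|` is a power of `p`, `ζ = exp (2 π i / n)`, `P` from KZJ. Every `μ ∈ primitiveRoots n ℂ` is `ζ ^ s`, `s < n` prime to `n`, so `p ∤ s`: `aeval μ P = ZK ψ (u ^ s)` is `≠ 0` and divided by `|K| = p ^ b` it is `IntAt` (KRP, KZU). `HTL_nag` of `helper1/LE/HTL.lean` (import it)
gives the inequality with the sum over `primitiveRoots n ℂ`, which is the sum over the `s` (bijection `s ↦ ζ ^ s`, as in HT4). -/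
def KAM_stmt : Prop :=
  ∀ (p : ℕ) (M : Ideal (integralClosure ℤ ℂ)), Setup p M → p ≠ 2 → ∀ (G : Type) [Group G] [Finite G]
    (D : Subgroup G) (x : G) (θ χ : G → ℂ), LoA p M D x θ χ → ∀ ε : G → ℤ, KSg p M D θ ε →
    ∀ (h g : ℕ) (K : Subgroup G) (u : G), KRC p M D θ h g K u → ∀ m : ℕ, Gm2 p (Nat.card G) m →
    ∀ ψ ∈ Bl M (⊤ : Subgroup G) θ, PR m ψ → KHt p D h ψ →
    (Nat.card K : ℝ) ^ 2 * Nat.totient (p * Nat.card D) ≤
      ∑ s ∈ (Finset.range (p * Nat.card D)).filter (fun s => s.Coprime (p * Nat.card D)), ‖ZK M θ ε K ψ (u ^ s)‖ ^ 2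

/-! ## 3. Orthogonality -/

/-- **KOR** (short-medium; from DOR4, GRG). Proof: `P = ⊥`, `cz ⊥ = ⊤` (`BST_cz_bot`, or rewrite as in BES4, `Pool/Agent/*/FI4/BES.lean`). `‖∑_a ε a * dd ψ a‖ ^ 2 = ∑_(a, b) ε a * ε b * dd ψ a * conj (dd ψ b)`; sum over `ψ ∈ Bl M ⊤ θ` (a finite set): for `a = b` `|D|` (`ε a ^ 2 = 1`), for `a ≠ b` `0` (DOR4 (3): no `t ∈ TT M D θ` has `t * b * t⁻¹ = a`). -/
def KOR_stmt : Prop :=
  ∀ (p : ℕ) (M : Ideal (integralClosure ℤ ℂ)), Setup p M → p ≠ 2 → ∀ (G : Type) [Group G] [Finite G]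
    (D : Subgroup G) (x : G) (θ χ : G → ℂ), LoA p M D x θ χ → ∀ ε : G → ℤ, (∀ u, ε u = 1 ∨ ε u = -1) →
    ∀ A : Finset G, (∀ a ∈ A, a ∈ RG M D θ) → (∀ a ∈ A, ∀ b ∈ A, ∀ t ∈ TT M D θ, t * b * t⁻¹ = a → a = b) →
    ∑ᶠ ψ ∈ Bl M (⊤ : Subgroup G) θ, ‖∑ a ∈ A, (ε a : ℂ) * dd M (Cz (⊤ : Subgroup G) a) θ ψ a‖ ^ 2 =
      (A.card : ℝ) * Nat.card D

/-- **KAS** (medium; group theory; from KRP). The elements `u ^ (1 + p s) * k` are regular and pairwise not conjugate under `T`. Proof: the first claim is KRP (`p ∤ 1 + p s`). Let `t * (u ^ (1 + p s) * k) * t⁻¹ = u ^ (1 + p s') * k'`, `a = 1 + p s`, `a' = 1 + p s'`. Modulo `K` (a `T`-invariant subgroup of the abelian group `D`): (1) `t u ^ a t⁻¹ ∈ u ^ a' K`.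
Choose `r ≡ 1` modulo `p` with `a * r ≡ a'` modulo `|D|` (`|D|` is a power of `p`; `a` is invertible modulo `p * |D|`, `r = a' a⁻¹` there). So with `v = u ^ a`: `t v t⁻¹ ∈ v ^ r K`, by induction `t ^ e v t ^ (-e) ∈ v ^ (r ^ e) K`, `e = iI M D θ = |T : C|`, `t ^ e ∈ C = cz D` (`C` is normal in `T`; the quotient has order `e`), so `v ^ (r ^ e - 1) ∈ K`, `p ∤ e`.
Let `o` be the order of `v` modulo `K` (a power of `p`): `r ^ e ≡ 1` modulo `o`; `r ≡ 1` modulo `p`, so `r ^ (p ^ c) ≡ 1` modulo `o` for some `c`, and `e`, `p ^ c` are coprime: `r ≡ 1` modulo `o` (if `o = 1`: clear). So `t v t⁻¹ ∈ v K`, also `u ^ a' ∈ u ^ a K`. (2) `y = u ^ a * k ∈ RG` and `t y t⁻¹ ∈ y K`: `N = ∏_(i<e) t ^ i y t ^ (-i)` commutes with `t` (`t N t⁻¹ = N` because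
`t ^ e ∈ C` commutes with `y`) and `N ∈ y ^ e K`; with `e f ≡ 1` modulo `|D|` `N ^ f ∈ y K = u ^ a K`, which is contained in `RG` (KRP): so `t` commutes with a regular element and `t ∈ cz D`. (3) So `t y t⁻¹ = y`: `u ^ (1 + p s) * k = u ^ (1 + p s') * k'`. If `s ≠ s'` then (say `s < s'`) `u ^ (p (s' - s)) ∈ K`; `u` has order `p ^ i` modulo `K`, so `p ^ i ∣ p (s' - s)`, `0 < s' - s < p ^ g`,
hence `i ≤ g` and `u ^ p ^ g ∈ K`: a contradiction to `ord` (`g = 0`: `s = s' = 0`). So `s = s'`, `k = k'`. -/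
def KAS_stmt : Prop :=
  ∀ (p : ℕ) (M : Ideal (integralClosure ℤ ℂ)), Setup p M → ∀ (G : Type) [Group G] [Finite G]
    (D : Subgroup G) (x : G) (θ χ : G → ℂ), LoA p M D x θ χ →
    ∀ (h g : ℕ) (K : Subgroup G) (u : G), KRC p M D θ h g K u →
    (∀ s : ℕ, ∀ k ∈ K, u ^ (1 + p * s) * k ∈ RG M D θ) ∧
    ∀ t ∈ TT M D θ, ∀ s < p ^ g, ∀ s' < p ^ g, ∀ k ∈ K, ∀ k' ∈ K,
      t * (u ^ (1 + p * s) * k) * t⁻¹ = u ^ (1 + p * s') * k' → s = s' ∧ k = k'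

/-- **KZS** (short-medium; from DP2, GRG). Proof: `s ≡ 1` modulo `p`, so `p ∤ s` and `k ↦ k ^ s` is a permutation of `K`; `u ^ s * k ^ s = (u * k) ^ s`. So `ZK ψ (u ^ s) = ∑_(k ∈ K) ε ((u k) ^ s) * dd ψ ((u k) ^ s) = ∑_k ε (u k) * dd ψ (u k)` (`KSg.pw`, DP2 with GRG for `u k ∈ RG`). -/
def KZS_stmt : Prop :=
  ∀ (p : ℕ) (M : Ideal (integralClosure ℤ ℂ)), Setup p M → p ≠ 2 → ∀ (G : Type) [Group G] [Finite G]
    (D : Subgroup G) (x : G) (θ χ : G → ℂ), LoA p M D x θ χ → ∀ ε : G → ℤ, KSg p M D θ ε →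
    ∀ (h g : ℕ) (K : Subgroup G) (u : G), KRC p M D θ h g K u → ∀ m : ℕ, Gm2 p (Nat.card G) m →
    ∀ ψ ∈ IrrOn (⊤ : Subgroup G), PR m ψ → ∀ s : ℕ, s ≡ 1 [MOD p] → ZK M θ ε K ψ (u ^ s) = ZK M θ ε K ψ u

/-- **KXC** (medium; from KOR, KAS, KZS). One coset. Proof: `A` = the image of `range (p ^ g) × K` under `(s, k) ↦ u ^ (1 + p s) * k` (injective: KAS for `t = 1`), `|A| = p ^ g * |K|`. KOR (KAS). For `ψ` in the left set `∑_(a ∈ A) ε a * dd ψ a = ∑_(s < p ^ g) ZK ψ (u ^ (1 + p s)) = p ^ g * ZK ψ u` (KZS). The terms of the other `ψ ∈ Bl M ⊤ θ` are `≥ 0`. So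
`(p ^ g) ^ 2 * ∑ ‖ZK ψ u‖ ^ 2 ≤ p ^ g * |K| * |D|`. -/
def KXC_stmt : Prop :=
  ∀ (p : ℕ) (M : Ideal (integralClosure ℤ ℂ)), Setup p M → p ≠ 2 → ∀ (G : Type) [Group G] [Finite G]
    (D : Subgroup G) (x : G) (θ χ : G → ℂ), LoA p M D x θ χ → ∀ ε : G → ℤ, KSg p M D θ ε →
    ∀ (h g : ℕ) (K : Subgroup G) (u : G), KRC p M D θ h g K u → ∀ m : ℕ, Gm2 p (Nat.card G) m →
    (p : ℝ) ^ g * ∑ᶠ ψ ∈ {ψ : G → ℂ | ψ ∈ Bl M (⊤ : Subgroup G) θ ∧ PR m ψ}, ‖ZK M θ ε K ψ u‖ ^ 2 ≤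
      (Nat.card K : ℝ) * Nat.card D

/-! ## 4. The bound -/

/-- **KXB** (medium; from KSG, KAM, KXC, KRP, TPR). Proof: `Blk M χ ⊤ = Bl M ⊤ θ` (TPR, `rt.ind`); `X` the finite set on the left; `ε` from KSG, `n = p * |D|`, `φ = totient n > 0`, `S = {s < n | s prime to n}` has `φ` elements, `p ∤ s` for `s ∈ S`. KAM: `|X| * |K| ^ 2 * φ ≤ ∑_(ψ ∈ X) ∑_(s ∈ S) ‖ZK ψ (u ^ s)‖ ^ 2`. KXC for `u ^ s` (KRP): `p ^ g * ∑_(ψ ∈ X) ‖ZK ψ (u ^ s)‖ ^ 2 ≤ |K| * |D|`.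
So `p ^ g * |X| * |K| ^ 2 * φ ≤ φ * |K| * |D|`; cancel `φ * |K| > 0`. -/
def KXB_stmt : Prop :=
  ∀ (p : ℕ) (M : Ideal (integralClosure ℤ ℂ)), Setup p M → p ≠ 2 → ∀ (G : Type) [Group G] [Finite G]
    (D : Subgroup G) (x : G) (θ χ : G → ℂ), LoA p M D x θ χ →
    ∀ (h g : ℕ) (K : Subgroup G) (u : G), KRC p M D θ h g K u → ∀ m : ℕ, Gm2 p (Nat.card G) m →
    (∀ ψ ∈ Blk M χ (⊤ : Subgroup G), KHt p D h ψ) →
    {ψ : G → ℂ | ψ ∈ Blk M χ (⊤ : Subgroup G) ∧ PR m ψ}.ncard * Nat.card K * p ^ g ≤ Nat.card D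

/-- **KHH** (short; from DFE of `helper58/LE/GenDefs`, C3 or `IrrOn_pos`). Proof: `|D| = p ^ a` (`Rt.dfa`/`pgrp`). DFE: `Defect p ⊤ ψ k`, `k ≤ a`: `ψ 1 = d`, `k = v(|G|) - v(d)` (`Nat.card ⊤ = Nat.card G`), and `a ≤ k + h` by hypothesis; `k' = a - k` as a natural number. `d ≠ 0` (`IrrOn_ne`). -/
def KHH_stmt : Prop :=
  ∀ (p : ℕ) (M : Ideal (integralClosure ℤ ℂ)), Setup p M → ∀ (G : Type) [Group G] [Finite G]
    (D : Subgroup G) (x : G) (θ χ : G → ℂ), Rt p M D x θ χ → ∀ h : ℕ,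
    (∀ ψ ∈ Blk M χ (⊤ : Subgroup G), ∀ a : ℕ, Nat.card D = p ^ a → ∀ k : ℤ, Defect p ⊤ ψ k → (a : ℤ) ≤ k + h) →
    ∀ ψ ∈ Blk M χ (⊤ : Subgroup G), KHt p D h ψ

/-- **KBL** (short; the OUTPUT; from LOA, GM2, CNL, KXB, KHH, LLN). THE BOUND. Proof: LOA; `m` from GM2; `LL p M χ ⊤ = l`, `1 ≤ l` (LLN, `χ ∈ Blk M χ ⊤`); CNL: `l ≤ |X|`; KXB. -/
def KBL_stmt : Prop :=
  ∀ (p : ℕ) (M : Ideal (integralClosure ℤ ℂ)), Setup p M → p ≠ 2 → ∀ (G : Type) [Group G] [Finite G]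
    (D : Subgroup G) (x : G) (θ χ : G → ℂ), Rt p M D x θ χ → ∀ (h g : ℕ) (K : Subgroup G) (u : G), KRC p M D θ h g K u →
    (∀ ψ ∈ Blk M χ (⊤ : Subgroup G), ∀ a : ℕ, Nat.card D = p ^ a → ∀ k : ℤ, Defect p ⊤ ψ k → (a : ℤ) ≤ k + h) →
    ∃ l : ℕ, LL p M χ ⊤ = l ∧ 1 ≤ l ∧ l * Nat.card K * p ^ g ≤ Nat.card D

/-! ## 5. Existence of regular cosets -/

/-- **KPW** (short-medium; group theory). The subgroup `D ^ q` of the abelian group `D`. Proof: the `q`-th powers of the elements of `D` form a subgroup (`(a * b) ^ q = a ^ q * b ^ q`), the image of the homomorphism `v ↦ v ^ q` of the type `D` (`powMonoidHom` for the commutative group structure on the type `D`, or define the homomorphism by hand); its kernel has `#{v ∈ D | v ^ q = 1}` elements. -/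
def KPW_stmt : Prop :=
  ∀ (G : Type) [Group G] [Finite G] (D : Subgroup G), (∀ c ∈ D, ∀ d ∈ D, c * d = d * c) → ∀ q : ℕ,
    ∃ K : Subgroup G, K ≤ D ∧ (∀ k, k ∈ K ↔ ∃ v ∈ D, v ^ q = k) ∧ (∀ t ∈ nz D, ∀ k ∈ K, t * k * t⁻¹ ∈ K) ∧
      Nat.card K * {v : G | v ∈ D ∧ v ^ q = 1}.ncard = Nat.card D

/-- **KIX** (medium; group theory). The elements of `D` which `t` fixes modulo `D ^ q`, `q = p ^ j`. Proof: `V = {w⁻¹ t w t⁻¹ | w ∈ D}` is a subgroup of `D`, the image of the homomorphism `φ w = w⁻¹ t w t⁻¹` (`t ∈ nz D`, `D` commutative; `HTL_hom` of `helper1/LE/HTL.lean`). (1) `V ∩ K = V ^ q`: let `v = z ^ q ∈ V`, `z ∈ D`, `N y = ∏_(i<e) t ^ i y t ^ (-i)` for `y ∈ D`, a homomorphism; `N v = 1` for `v ∈ V`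
(telescoping, `t ^ e` commutes with `D`); `y ^ e = N y * y₁` with `y₁ ∈ V` (each `t ^ i y t ^ (-i) ∈ y V`, `V` is invariant under `t`). So `z ^ e = N z * y₁`, `(N z) ^ q = N v = 1`, `v ^ e = (z ^ e) ^ q = y₁ ^ q ∈ V ^ q`, and `p ∤ e`: `v ∈ V ^ q`. (2) The set on the left is the preimage of `V ∩ K = V ^ q` under `φ : D → V`, so it has
`|D| / |V : V ^ q|` elements, and `|V : V ^ q| = #{v ∈ V | v ^ q = 1} ≥ q`, because `V` has an element of order `≥ q` (the witness `w`; its order is a power of `p`), whose powers contain `q` elements with `v ^ q = 1`. -/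
def KIX_stmt : Prop :=
  ∀ (p : ℕ), p.Prime → ∀ (G : Type) [Group G] [Finite G] (D K : Subgroup G), IsPGroup p D → (∀ c ∈ D, ∀ d ∈ D, c * d = d * c) →
    ∀ j : ℕ, 1 ≤ j → (∀ k, k ∈ K ↔ ∃ v ∈ D, v ^ p ^ j = k) → ∀ t ∈ nz D, ∀ e : ℕ, ¬ p ∣ e → t ^ e ∈ cz D →
    (∃ w ∈ D, (w⁻¹ * t * w * t⁻¹) ^ p ^ (j - 1) ≠ 1) →
    p ^ j * {u : G | u ∈ D ∧ u⁻¹ * t * u * t⁻¹ ∈ K}.ncard ≤ Nat.card D

/-- **KEX** (medium; group theory; from KIX). Existence. Proof: as `HTL_rg` of `helper1/LE/HTL.lean`: representatives `t₁, ..` of the `iI - 1` cosets of `C = cz D` in `T = TT M D θ` different from `C`. The set `F i = {u ∈ D | u⁻¹ tᵢ u tᵢ⁻¹ ∈ K}` has at most `|D| / p ^ j` elements (KIX, `e = iI`, `tᵢ ^ iI ∈ C`), and `F i * K = F i`. If `u ∈ D` is in no `F i`, then `u k ∈ RG` for all `k ∈ K`: otherwise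
some `t ∈ T`, `t ∉ C` commutes with `u k`, `t ∈ tᵢ C`, `tᵢ` commutes with `u k` and `u k ∈ F i`, `u ∈ F i`. Union bound: if `g = 0`: `(iI - 1) |D| / p ^ j < |D|`. If `g > 0`: the set `{u ∈ D | u ^ p ^ g ∈ K}` has at most `|D| / q` elements, `(iI - 1) / p ^ j + 1 / q < 1`. `pw` of `KRC` for `h + 1 ≤ j`: `v ^ p ^ j = (v ^ p ^ (j - h - 1)) ^ p ^ (h + 1)`. `inv`: `TT ≤ nz D`. -/
def KEX_stmt : Prop :=
  ∀ (p : ℕ) (M : Ideal (integralClosure ℤ ℂ)), p.Prime → ∀ (G : Type) [Group G] [Finite G] (D K : Subgroup G) (θ : G → ℂ),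
    θ ∈ IrrOn (cz D) → IsPGroup p D → (∀ c ∈ D, ∀ d ∈ D, c * d = d * c) → ¬ p ∣ (cz D).relIndex (TT M D θ) →
    ∀ j h g : ℕ, h + 1 ≤ j → (∀ k, k ∈ K ↔ ∃ v ∈ D, v ^ p ^ j = k) →
    (∀ t ∈ TT M D θ, t ∉ cz D → ∃ w ∈ D, (w⁻¹ * t * w * t⁻¹) ^ p ^ (j - 1) ≠ 1) →
    ((g = 0 ∧ iI M D θ ≤ p ^ j) ∨ ∃ q : ℕ, q * {u : G | u ∈ D ∧ u ^ p ^ g ∈ K}.ncard ≤ Nat.card D ∧
      (iI M D θ - 1) * q + p ^ j < p ^ j * q) →
    ∃ u : G, KRC p M D θ h g K u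

end Pool.Agent.LE
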