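import Mathlib
import Pool.Agent.helper12.LE.AllL5
import Pool.Agent.helper12.LE.FinM
import Pool.Agent.helper12.LE.Glue
import Pool.Agent.helper12.FI5.All5
import Pool.Agent.helper70.LE.AllN
import Pool.Agent.helper83.LE.AllK
import Pool.Agent.helper58.LE.HHE
import Pool.Agent.helper1.LE.HZH
import Pool.Agent.helper58.LE.P2L
import Pool.Agent.helper95.LE.ALLR
import Pool.Agent.helper59.LE.REX
import Pool.Agent.helper67.LE.R2D

/-!
# MP_baa4d7_al, project LE: all hypotheses of the final theorems (`FinL`, `FinM`) closed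
-/

set_option autoImplicit false

namespace Pool.Agent.LE.AllL

open Pool.Agent.helper58.DC Pool.Agent.DI Pool.Agent.GR Pool.Agent.OB Pool.Agent.DR Pool.Agent.FI Pool.Agent.FI3 Pool.Agent.FI4 Pool.Agent.FI4I Pool.Agent.LE

theorem aLOA : LOA_stmt := Pool.Agent.FI4.AllP4.pLOA
theorem aXL : XL_stmt := Pool.Agent.FI5.All5.aXL
theorem aR2A : R2A_stmt := R2A
theorem aR2B : R2B_stmt := R2B
theorem aR2Ca : R2Ca_stmt := R2Ca
theorem aR2Da : R2Da_stmt := R2Da
theorem aRKR : RKR_stmt := RKR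
theorem aRKZ : RKZ_stmt := RKZ
theorem aRKC : RKC_stmt := RKC
theorem aREX : REX_stmt := REX
theorem aHHE : HHE_stmt := HHE
theorem aHZH : HZH_stmt := HZH
theorem aBDE : BDE_stmt := Pool.Agent.LE.AllBK.kBDE
theorem aHNG : HNG_stmt := Pool.Agent.LE.AllG.gHNG
theorem aAMG : AMG_stmt := Pool.Agent.LE.AllG.gAMG
theorem aP2L : P2L_stmt := P2L Pool.Agent.LE.AllN.nNIL aBDE (Glue_DVZ Pool.Agent.L5.AllL5.mDV5)
theorem aDC5 : Pool.Agent.L5.DC5_stmt := Pool.Agent.L5.AllL5.mDC5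
theorem aEJ5 : Pool.Agent.L5.EJ5_stmt := Pool.Agent.L5.AllL5.mEJ5

end Pool.Agent.LE.AllL
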