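import Mathlib
import Pool.Agent.helper12.LE.AllL
import Pool.Agent.helper12.LE.FinZ
import Pool.Agent.helper18.LZ.ZRG
import Pool.Agent.helper92.LZ.ZL1
import Pool.Agent.helper27.LZ.ZL2
import Pool.Agent.helper40.LZ.ZL3
import Pool.Agent.helper43.LZ.ZL4
import Pool.Agent.helper23.LZ.ZL5
import Pool.Agent.helper39.LZ.ZX0
import Pool.Agent.helper51.LZ.ZAX
import Pool.Agent.helper27.LZ.ZPL
import Pool.Agent.helper32.LZ.ZTH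
import Pool.Agent.helper59.LZ.ZAG
import Pool.Agent.helper91.LZ.ZCT
import Pool.Agent.helper58.LZ.ZNV
import Pool.Agent.helper59.LZ.ZNR
import Pool.Agent.helper98.LZ.ZOR
import Pool.Agent.helper23.LZ.ZTS
import Pool.Agent.helper5.LZ.ZGA
import Pool.Agent.helper48.LZ.ZE0
import Pool.Agent.helper84.LZ.ZPR
import Pool.Agent.helper36.LZ.ZNG
import Pool.Agent.helper70.LZ.ZBX
import Pool.Agent.helper5.LZ.BDZ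
import Pool.Agent.helper36.LZ.HEZ

/-!
# MP_baa4d7_al, project LE, block BOUND-Z (specification: helper70/LZ): all rows closed
-/

set_option autoImplicit false

namespace Pool.Agent.LE.AllZ

open Pool.Agent.helper58.DC Pool.Agent.DI Pool.Agent.GR Pool.Agent.OB Pool.Agent.DR Pool.Agent.FI Pool.Agent.FI3 Pool.Agent.FI4 Pool.Agent.FI4I Pool.Agent.LE

theorem zZRG : ZRG_stmt := ZRG FI.AllQ1.qQRP FI.AllQ.qQEV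
theorem zZL1 : ZL1_stmt := ZL1 FI.AllQ.qQEV GR.All.dIDM GR.All.dEXP GR.All.dB2 FI.AllA.dSTC
theorem zZL2 : ZL2_stmt :=
  ZL2 zZL1 zZRG FI.AllA.dTPR FI.AllQ.qQCE FI.AllQ.qQRS GR.All.dB2 FI.AllA.dSTC
theorem zZL3 : ZL3_stmt := ZL3 FI4.AllHT.hNRC FI.AllQ1.qQRP FI.AllA.dSTC
theorem zZL4 : ZL4_stmt := ZL4 GR.All.dC3 GR.All.dB2 GR.All.dCVF
theorem zZL5 : ZL5_stmt := ZL5 zZL2 zZL3 zZL4
theorem zZX0 : ZX0_stmt := ZX0 zZL1 FI.AllA.dBLE FI.AllA.dSBI FI.AllA.dEXB FI.AllQ.qQEI GR.All.dB2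
theorem zZAX : ZAX_stmt := ZAX FI.AllQ.qQRS FI.AllQ.qQCE FI.AllQ.qQEI FI.AllA.dBLE
theorem zZPL : ZPL_stmt := ZPL zZAX zZL5 FI.AllQ.qQRS FI.AllQ.qQCE
theorem zZTH : ZTH_stmt := ZTH FI4.AllP4.pQCN4 FI.AllA.dBRY FI.AllA.dSTC GR.All.dB2
theorem zZAG : ZAG_stmt :=
  ZAG zZTH FI.AllA.dEXB FI.AllA.dSBI FI.AllQ.qQEI FI.AllQ.qQCE FI.AllC.cFEQ GR.All.dB2 GR.All.dC3
theorem zZCT : ZCT_stmt :=
  ZCT FI4.AllP4.pQFU4 FI.AllA.dEXB FI.AllC.cFEQ FI4.AllP4.pFRA4 FI.AllA.dTPR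
theorem zZNV : ZNV_stmt := ZNV zZAG zZCT
theorem zZNR : ZNR_stmt := ZNR FI.AllA.dBRY FI.AllA.dBLE FI.AllQ.qQEI FI.AllA.dSTC GR.All.dB2
theorem zZTS : ZTS_stmt := ZTS FI4.AllP4.pQFU4
theorem zZGA : ZGA_stmt := ZGA LE.AllB.lGP2
theorem zZE0 : ZE0_stmt := ZE0 FI.AllQ.qQCE GR.All.dB2 FI.AllA.dSTC
theorem zZPR : ZPR_stmt := ZPR
theorem zZNG : ZNG_stmt := ZNG FI4.AllHT.hNRC
theorem zZOR : ZOR_stmt :=
  ZOR GR.All.dBR0 FI.AllA.dBRY FI.AllA.dBLE FI.AllQ.qQEI FI.AllQ.qQCJ FI.AllC.cFEQ GR.All.dSFC FI.AllA.dSTC GR.All.dB2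
theorem zZBX : ZBX_stmt := ZBX zZX0 zZPL zZNV zZNR zZOR zZTS zZGA zZE0 zZPR zZNG
theorem zBDZ : BDZ_stmt :=
  BDZ FI4.AllP4.pLOA LE.AllB.lGM2 LE.AllB.lCNL FI4.AllK.kLLN FI.AllA.dTPR zZBX
theorem zHEZ : HEZ_stmt := HEZ

end Pool.Agent.LE.AllZ
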